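import Pool.Agent.Lib.TPW.Hom

/-!
# Homomorphisms out of the group of the plan of a pinwheel
-/

namespace Pool.TPW

open Function Monoid Pool.GSP Pool.TPG

theorem ft_ext {H : Type*} [Group H] {F G : F2 × Zm →* H} (h1 : F (gx, 1) = G (gx, 1))
    (h2 : F (gd, 1) = G (gd, 1))
    (h3 : F (1, Multiplicative.ofAdd 1) = G (1, Multiplicative.ofAdd 1)) : F = G := by
  have e1 : F.comp (MonoidHom.inl F2 Zm) = G.comp (MonoidHom.inl F2 Zm) := by
    refine FreeGroup.ext_hom _ _ ?_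
    rintro (_ | _)
    · exact h2
    · exact h1
  have e2 : F.comp (MonoidHom.inr F2 Zm) = G.comp (MonoidHom.inr F2 Zm) := zm_ext h3
  refine MonoidHom.ext fun z => ?_
  have h4 : z = MonoidHom.inl F2 Zm z.1 * MonoidHom.inr F2 Zm z.2 := by simp
  rw [h4, map_mul, map_mul]
  exact congrArg₂ (fun a b => a * b) (DFunLike.congr_fun e1 z.1) (DFunLike.congr_fun e2 z.2)

theorem en_ext {A H : Type*} [Group A] [Group H] {α : Zm →* MulAut A} {F G : A ⋊[α] Zm →* H}
    (h1 : ∀ a, F (SemidirectProduct.inl a) = G (SemidirectProduct.inl a))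
    (h2 : F (SemidirectProduct.inr (Multiplicative.ofAdd 1)) =
      G (SemidirectProduct.inr (Multiplicative.ofAdd 1))) : F = G := by
  refine SemidirectProduct.hom_ext (MonoidHom.ext h1) (zm_ext h2)

theorem comm_free {H : Type*} [Group H] {F G : F2 →* H}
    (h : ∀ i j, Commute (F (FreeGroup.of i)) (G (FreeGroup.of j))) (u v : F2) :
    Commute (F u) (G v) := by
  have h1 : ∀ i, Commute (F (FreeGroup.of i)) (G v) := by
    intro i
    induction v using FreeGroup.induction_on with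
    | C1 => rw [map_one]; exact Commute.one_right _
    | of j => exact h i j
    | inv_of j ih => rw [map_inv]; exact ih.inv_right
    | mul x y hx hy => rw [map_mul]; exact hx.mul_right hy
  induction u using FreeGroup.induction_on with
  | C1 => rw [map_one]; exact Commute.one_left _
  | of i => exact h1 i
  | inv_of i ih => rw [map_inv]; exact ih.inv_left
  | mul x y hx hy => rw [map_mul]; exact hx.mul_left hy

theorem pw_one' {G : Type*} [Group G] (g : G) : pw g (1 : Zm) = 1 := map_one _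

section

variable {A B G0 G1 : Type} [Group A] [Group B] [Group G0] [Group G1] {X : Wheel A B G0 G1}
  {H : Type*} [Group H] {h0 : G0 →* H} {h1 : G1 →* H} {t : H} (hs : X.Sat h0 h1 t)

include hs

theorem comm_AB (u v : F2) : Commute ((h1.comp (X.p.comp κT)) u)
    ((h0.comp (X.g.comp (κS X.δ'))) v) := by
  refine comm_free ?_ u v
  rintro (_ | _) (_ | _)
  · change Commute (h1 (X.p (κT gd))) (h0 (X.g (κS X.δ' gd)))
    rw [κT_false', κS_false, ← hs.r0]
    change h0 (X.f X.δ) * h0 (X.g (Coprod.inl X.δ')) = h0 (X.g (Coprod.inl X.δ')) * h0 (X.f X.δ)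
    have e := X.actB X.δ'
    rw [X.hμ, mul_inv_eq_iff_eq_mul] at e
    rw [← map_mul, ← map_mul, e]
  · change Commute (h1 (X.p (κT gd))) (h0 (X.g (κS X.δ' gx)))
    rw [κT_false', κS_true, ← hs.r0]
    change h0 (X.f X.δ) * h0 (X.g xS) = h0 (X.g xS) * h0 (X.f X.δ)
    rw [← map_mul, ← map_mul, X.actY]
  · change Commute (h1 (X.p (κT gx))) (h0 (X.g (κS X.δ' gd)))
    rw [κT_true, κS_false, hs.rB]
    change h1 (X.p gx) * h1 (X.q X.δ') = h1 (X.q X.δ') * h1 (X.p gx)
    rw [← map_mul, ← map_mul, X.act1']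
  · change Commute (h1 (X.p (κT gx))) (h0 (X.g (κS X.δ' gx)))
    rw [κT_true, κS_true]
    exact hs.rxy

/-- the third brick -/
def J2 : F2 × F2 →* H :=
  (h1.comp (X.p.comp κT)).noncommCoprod (h0.comp (X.g.comp (κS X.δ'))) (comm_AB hs)

theorem J2_apply (z : F2 × F2) : J2 hs z = h1 (X.p (κT z.1)) * h0 (X.g (κS X.δ' z.2)) := rfl

theorem comm_M (u : F2) (n : Zm) :
    Commute ((FreeGroup.lift (fun b => bif b then h0 (X.g xS) else t) : F2 →* H) u)
      (pw (h1 (X.p gx)) n) := by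
  have e : ∀ u : F2, Commute ((FreeGroup.lift (fun b => bif b then h0 (X.g xS) else t) : F2 →* H) u)
      (h1 (X.p gx)) := by
    intro u
    induction u using FreeGroup.induction_on with
    | C1 => rw [map_one]; exact Commute.one_left _
    | of i =>
      rw [FreeGroup.lift_apply_of]
      cases i
      · exact hs.rx.symm
      · exact hs.rxy.symm
    | inv_of i ih => rw [map_inv]; exact ih.inv_left
    | mul x y hx hy => rw [map_mul]; exact hx.mul_left hy
  exact (e u).zpow_right n.toAdd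

/-- the second vertical wall -/
def eM : F2 × Zm →* H :=
  (FreeGroup.lift (fun b => bif b then h0 (X.g xS) else t)).noncommCoprod (pw (h1 (X.p gx)))
    (comm_M hs)

theorem eM_apply (m : F2 × Zm) : eM hs m = X.evM h0 h1 t m := rfl

theorem conj_N (z : Sg A) :
    sgLift (h0.comp X.f) (h1 (X.p gx)) (extA (pw X.ν) (Multiplicative.ofAdd 1) z) =
      h0 (X.g xS) * sgLift (h0.comp X.f) (h1 (X.p gx)) z * (h0 (X.g xS))⁻¹ := by
  have h : (sgLift (h0.comp X.f) (h1 (X.p gx))).comp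
      (extA (pw X.ν) (Multiplicative.ofAdd 1)).toMonoidHom =
      (MulAut.conj (h0 (X.g xS))).toMonoidHom.comp (sgLift (h0.comp X.f) (h1 (X.p gx))) := by
    refine sg_ext (fun a => ?_) ?_
    · simp only [MonoidHom.comp_apply, MulEquiv.toMonoidHom_eq_coe, MonoidHom.coe_coe, extA_inl,
        sgLift_inl, MulAut.conj_apply, pw_ofAdd_one]
      rw [← map_inv, ← map_mul, ← map_mul, X.actA]
    · simp only [MonoidHom.comp_apply, MulEquiv.toMonoidHom_eq_coe, MonoidHom.coe_coe, extA_x,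
        sgLift_x, MulAut.conj_apply]
      rw [← hs.rxy]
      group
  exact DFunLike.congr_fun h z

/-- the second horizontal wall -/
def eN : NN (pw X.ν) →* H :=
  sdLift (extA (pw X.ν)) (sgLift (h0.comp X.f) (h1 (X.p gx))) (h0 (X.g xS)) (conj_N hs)

theorem eN_apply (n : NN (pw X.ν)) : eN hs n = X.evN h0 h1 n := rfl

theorem eM_gx : eM hs (gx, 1) = h0 (X.g xS) := by
  rw [eM_apply, Wheel.evM]
  simp

theorem eM_gd : eM hs (gd, 1) = t := by
  rw [eM_apply, Wheel.evM]
  simp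

theorem eM_x : eM hs (1, Multiplicative.ofAdd 1) = h1 (X.p gx) := by
  rw [eM_apply, Wheel.evM]
  simp

theorem eN_inl (a : A) : eN hs (SemidirectProduct.inl (Coprod.inl a)) = h0 (X.f a) := by
  rw [eN_apply, Wheel.evN]
  simp

theorem eN_x : eN hs (SemidirectProduct.inl xS) = h1 (X.p gx) := by
  rw [eN_apply, Wheel.evN]
  simp

theorem eN_y : eN hs (SemidirectProduct.inr (Multiplicative.ofAdd 1)) = h0 (X.g xS) := by
  rw [eN_apply, Wheel.evN]
  simp

theorem l_p2 (s : EN (pw X.μ)) : h1 (X.P2 s) = h0 (X.P1 (jA (pw X.μ) s)) := by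
  have h : h1.comp X.P2 = (h0.comp X.P1).comp (jA (pw X.μ)) := by
    refine en_ext (fun b => ?_) ?_
    · change h1 (X.P2 (SemidirectProduct.inl b)) =
        h0 (X.P1 (jA (pw X.μ) (SemidirectProduct.inl b)))
      have e1 : X.P2 (SemidirectProduct.inl b) = X.q b := by
        rw [Wheel.P2_apply]; simp
      have e2 : X.P1 (jA (pw X.μ) (SemidirectProduct.inl b)) = X.g (Coprod.inl b) := by
        rw [Wheel.P1_apply, jA_apply]; simp
      rw [e1, e2, hs.rB]
    · change h1 (X.P2 (SemidirectProduct.inr _)) = h0 (X.P1 (jA (pw X.μ) (SemidirectProduct.inr _)))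
      have e1 : X.P2 (SemidirectProduct.inr (Multiplicative.ofAdd 1)) = X.p cmF := by
        rw [Wheel.P2_apply]; simp
      have e2 : X.P1 (jA (pw X.μ) (SemidirectProduct.inr (Multiplicative.ofAdd 1))) = X.f X.δ := by
        rw [Wheel.P1_apply, jA_apply]; simp
      rw [e1, e2, hs.r0]
  exact DFunLike.congr_fun h s

theorem J2_left (u : F2) : J2 hs (u, 1) = h1 (X.p (κT u)) := by
  rw [J2_apply]; simp

theorem J2_right (v : F2) : J2 hs (1, v) = h0 (X.g (κS X.δ' v)) := by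
  rw [J2_apply]; simp

theorem l_p3 (u : F2 × Zm) : J2 hs (s2 gd u) = h0 (X.P1 (X.fM u)) := by
  have h : (J2 hs).comp (s2 gd) = (h0.comp X.P1).comp X.fM := by
    have e : ∀ v : F2, X.P1 (X.fM (v, 1)) = X.g (κS X.δ' v) := by
      intro v
      rw [Wheel.P1_apply, Wheel.fM, jF_apply]; simp
    refine ft_ext ?_ ?_ ?_
    · change J2 hs (pw gd 1, gx) = h0 (X.P1 (X.fM (gx, 1)))
      rw [pw_one', J2_right, e]
    · change J2 hs (pw gd 1, gd) = h0 (X.P1 (X.fM (gd, 1)))
      rw [pw_one', J2_right, e]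
    · change J2 hs (pw gd (Multiplicative.ofAdd 1), 1) = h0 (X.P1 (X.fM (1, Multiplicative.ofAdd 1)))
      have e2 : X.P1 (X.fM (1, Multiplicative.ofAdd 1)) = X.f X.δ := by
        rw [Wheel.P1_apply, Wheel.fM, jF_apply]; simp
      rw [pw_ofAdd_one, J2_left, e2, κT_false', hs.r0]
  exact DFunLike.congr_fun h u

theorem ry' : t * h0 (X.g xS) * t⁻¹ * (h0 (X.g xS))⁻¹ = h0 (X.g (Coprod.inl X.δ')) := by
  rw [hs.ry, map_mul, map_mul]
  group

theorem l_p4 (u : F2 × Zm) : J2 hs (s2 gx u) = eM hs (iT u) := by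
  have h : (J2 hs).comp (s2 gx) = (eM hs).comp iT := by
    refine ft_ext ?_ ?_ ?_
    · change J2 hs (pw gx 1, gx) = eM hs (κT gx, 1)
      rw [pw_one', J2_right, κT_true, eM_gx, κS_true]
    · change J2 hs (pw gx 1, gd) = eM hs (κT gd, 1)
      have e : ((κT gd, 1) : F2 × Zm) = (gd, 1) * (gx, 1) * (gd, 1)⁻¹ * (gx, 1)⁻¹ := by
        rw [κT_false]; simp
      rw [pw_one', J2_right, e, map_mul, map_mul, map_mul, map_inv, map_inv, eM_gx, eM_gd,
        κS_false, ry' hs]
    · change J2 hs (pw gx (Multiplicative.ofAdd 1), 1) = eM hs (κT 1, Multiplicative.ofAdd 1)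
      rw [pw_ofAdd_one, J2_left, κT_true, map_one κT, eM_x]
  exact DFunLike.congr_fun h u

theorem l_p5 (u : F2 × Zm) : J2 hs (s2 dy u) * h1 (X.p gd) = h1 (X.p gd) * eM hs (X.iT' u) := by
  have h : (MulAut.conj (h1 (X.p gd))⁻¹).toMonoidHom.comp ((J2 hs).comp (s2 dy)) =
      (eM hs).comp X.iT' := by
    have ers : (h1 (X.p gd))⁻¹ * h0 (X.g xS) * h1 (X.p gd) = eM hs (X.Φ (gx, 1)) := by
      have e1 := hs.rs
      rw [eM_apply, mul_assoc, e1, inv_mul_cancel_left]
    have ert : (h1 (X.p gd))⁻¹ * (t * eN hs X.w) * h1 (X.p gd) = eM hs (X.Φ (gd, 1)) := by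
      have e1 := hs.rt
      rw [eM_apply, eN_apply, mul_assoc, e1, inv_mul_cancel_left]
    have ewy : h0 (X.g xS) * eN hs X.w = eN hs X.w * h0 (X.g xS) := by
      have e1 := congrArg (eN hs) X.wy
      rwa [map_mul, map_mul, eN_y] at e1
    refine ft_ext ?_ ?_ ?_
    · change (h1 (X.p gd))⁻¹ * J2 hs (pw dy 1, gx) * ((h1 (X.p gd))⁻¹)⁻¹ = eM hs (X.Φ (κT gx, 1))
      rw [pw_one', J2_right, κS_true, κT_true, inv_inv, ers]
    · change (h1 (X.p gd))⁻¹ * J2 hs (pw dy 1, gd) * ((h1 (X.p gd))⁻¹)⁻¹ = eM hs (X.Φ (κT gd, 1))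
      have e : ((κT gd, 1) : F2 × Zm) = (gd, 1) * (gx, 1) * (gd, 1)⁻¹ * (gx, 1)⁻¹ := by
        rw [κT_false]; simp
      rw [pw_one', J2_right, κS_false, inv_inv, e, map_mul X.Φ, map_mul X.Φ, map_mul X.Φ,
        map_inv X.Φ, map_inv X.Φ, map_mul, map_mul, map_mul, map_inv, map_inv, ← ers, ← ert,
        ← ry' hs]
      have e2 : t * eN hs X.w * h0 (X.g xS) * (t * eN hs X.w)⁻¹ = t * h0 (X.g xS) * t⁻¹ := by
        rw [mul_assoc t, ← ewy]
        group
      calc (h1 (X.p gd))⁻¹ * (t * h0 (X.g xS) * t⁻¹ * (h0 (X.g xS))⁻¹) * h1 (X.p gd)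
          = (h1 (X.p gd))⁻¹ * ((t * eN hs X.w * h0 (X.g xS) * (t * eN hs X.w)⁻¹) *
            (h0 (X.g xS))⁻¹) * h1 (X.p gd) := by rw [e2]
        _ = _ := by group
    · change (h1 (X.p gd))⁻¹ * J2 hs (pw dy (Multiplicative.ofAdd 1), 1) * ((h1 (X.p gd))⁻¹)⁻¹ =
        eM hs (X.Φ (κT 1, Multiplicative.ofAdd 1))
      rw [pw_ofAdd_one, J2_left, κT_dy, map_one κT, X.Φx, eM_x, inv_inv, map_mul, map_mul,
        map_inv, map_mul, map_mul, map_inv]
      group
  have h2 := DFunLike.congr_fun h u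
  change (h1 (X.p gd))⁻¹ * J2 hs (s2 dy u) * ((h1 (X.p gd))⁻¹)⁻¹ = eM hs (X.iT' u) at h2
  rw [← h2]
  group

theorem l_q1 (s : EN (pw X.ν)) : h0 (X.Q1 s) = eN hs (jA (pw X.ν) s) := by
  have h : h0.comp X.Q1 = (eN hs).comp (jA (pw X.ν)) := by
    refine en_ext (fun a => ?_) ?_
    · change h0 (X.Q1 (SemidirectProduct.inl a)) = eN hs (jA (pw X.ν) (SemidirectProduct.inl a))
      have e1 : X.Q1 (SemidirectProduct.inl a) = X.f a := by
        rw [Wheel.Q1_apply]; simp
      have e2 : jA (pw X.ν) (SemidirectProduct.inl a) = SemidirectProduct.inl (Coprod.inl a) := by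
        rw [jA, SemidirectProduct.map_inl]
      rw [e1, e2, eN_inl]
    · change h0 (X.Q1 (SemidirectProduct.inr _)) = eN hs (jA (pw X.ν) (SemidirectProduct.inr _))
      have e1 : X.Q1 (SemidirectProduct.inr (Multiplicative.ofAdd 1)) = X.g xS := by
        rw [Wheel.Q1_apply]; simp
      have e2 : jA (pw X.ν) (SemidirectProduct.inr (Multiplicative.ofAdd 1)) =
          SemidirectProduct.inr (Multiplicative.ofAdd 1) := by
        rw [jA, SemidirectProduct.map_inr]; rfl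
      rw [e1, e2, eN_y]
  exact DFunLike.congr_fun h s

theorem ry2 : t⁻¹ * h0 (X.g (Coprod.inl X.δ' * xS)) * t = h0 (X.g xS) := by
  rw [mul_assoc, ← hs.ry]
  group

theorem l_q2 (s : EN (pw X.ν')) : h0 (X.Q2 s) * t = t * eN hs (X.aN' s) := by
  have h : (MulAut.conj t⁻¹).toMonoidHom.comp (h0.comp X.Q2) = (eN hs).comp X.aN' := by
    refine en_ext (fun a => ?_) ?_
    · change t⁻¹ * h0 (X.Q2 (SemidirectProduct.inl a)) * (t⁻¹)⁻¹ =
        eN hs (X.Ψ (jA (pw X.ν') (SemidirectProduct.inl a)))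
      have e1 : X.Q2 (SemidirectProduct.inl a) = X.f' a := by
        rw [Wheel.Q2_apply]; simp
      have e2 : jA (pw X.ν') (SemidirectProduct.inl a) = SemidirectProduct.inl (Coprod.inl a) := by
        rw [jA, SemidirectProduct.map_inl]
      rw [e1, e2, inv_inv, mul_assoc, hs.rA, eN_apply]
      group
    · change t⁻¹ * h0 (X.Q2 (SemidirectProduct.inr _)) * (t⁻¹)⁻¹ =
        eN hs (X.Ψ (jA (pw X.ν') (SemidirectProduct.inr _)))
      have e1 : X.Q2 (SemidirectProduct.inr (Multiplicative.ofAdd 1)) =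
          X.g (Coprod.inl X.δ' * xS) := by
        rw [Wheel.Q2_apply]; simp
      have e2 : jA (pw X.ν') (SemidirectProduct.inr (Multiplicative.ofAdd 1)) =
          SemidirectProduct.inr (Multiplicative.ofAdd 1) := by
        rw [jA, SemidirectProduct.map_inr]; rfl
      rw [e1, e2, inv_inv, ry2 hs, X.Ψy, eN_y]
  have h2 := DFunLike.congr_fun h s
  change t⁻¹ * h0 (X.Q2 s) * (t⁻¹)⁻¹ = eN hs (X.aN' s) at h2
  rw [← h2]
  group

theorem l_q3 (u : F2 × Zm) : J2 hs (s1 gx u) = eN hs (X.fN u) := by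
  have h : (J2 hs).comp (s1 gx) = (eN hs).comp X.fN := by
    refine ft_ext ?_ ?_ ?_
    · change J2 hs (gx, pw gx 1) = eN hs (X.fN (gx, 1))
      have e : X.fN (gx, 1) = SemidirectProduct.inl xS := by
        rw [Wheel.fN, jF_apply]; simp only [κS_true]; rfl
      rw [pw_one', J2_left, e, κT_true, eN_x]
    · change J2 hs (gd, pw gx 1) = eN hs (X.fN (gd, 1))
      have e : X.fN (gd, 1) = SemidirectProduct.inl (Coprod.inl X.δ) := by
        rw [Wheel.fN, jF_apply]; simp only [κS_false]; rfl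
      rw [pw_one', J2_left, e, κT_false', eN_inl, hs.r0]
    · change J2 hs (1, pw gx (Multiplicative.ofAdd 1)) = eN hs (X.fN (1, Multiplicative.ofAdd 1))
      have e : X.fN (1, Multiplicative.ofAdd 1) =
          SemidirectProduct.inr (Multiplicative.ofAdd 1) := by
        rw [Wheel.fN, jF_apply]; simp only [map_one]; rfl
      rw [pw_ofAdd_one, J2_right, κS_true, e, eN_y]
  exact DFunLike.congr_fun h u

theorem l_q4 (u : F2 × Zm) : J2 hs (s1 dy u) * t = t * eN hs (X.fN' u) := by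
  have h : (MulAut.conj t⁻¹).toMonoidHom.comp ((J2 hs).comp (s1 dy)) = (eN hs).comp X.fN' := by
    refine ft_ext ?_ ?_ ?_
    · change t⁻¹ * J2 hs (gx, pw dy 1) * (t⁻¹)⁻¹ = eN hs (X.Ψ (jF (pw X.ν') X.δ X.fixA' (gx, 1)))
      have e : jF (pw X.ν') X.δ X.fixA' (gx, 1) = SemidirectProduct.inl xS := by
        rw [jF_apply]; simp only [κS_true]; rfl
      rw [pw_one', J2_left, e, κT_true, X.Ψx, eN_x, inv_inv, mul_assoc, hs.rx]
      group
    · change t⁻¹ * J2 hs (gd, pw dy 1) * (t⁻¹)⁻¹ = eN hs (X.Ψ (jF (pw X.ν') X.δ X.fixA' (gd, 1)))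
      have e : jF (pw X.ν') X.δ X.fixA' (gd, 1) = SemidirectProduct.inl (Coprod.inl X.δ) := by
        rw [jF_apply]; simp only [κS_false]; rfl
      rw [pw_one', J2_left, e, κT_false', ← hs.r0, ← X.ff', inv_inv, mul_assoc, hs.rA, eN_apply]
      group
    · change t⁻¹ * J2 hs (1, pw dy (Multiplicative.ofAdd 1)) * (t⁻¹)⁻¹ =
        eN hs (X.Ψ (jF (pw X.ν') X.δ X.fixA' (1, Multiplicative.ofAdd 1)))
      have e : jF (pw X.ν') X.δ X.fixA' (1, Multiplicative.ofAdd 1) =
          SemidirectProduct.inr (Multiplicative.ofAdd 1) := by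
        rw [jF_apply]; simp only [map_one]; rfl
      rw [pw_ofAdd_one, J2_right, κS_dy, e, inv_inv, ry2 hs, X.Ψy, eN_y]
  have h2 := DFunLike.congr_fun h u
  change t⁻¹ * J2 hs (s1 dy u) * (t⁻¹)⁻¹ = eN hs (X.fN' u) at h2
  rw [← h2]
  group

theorem l_q6 (u : F2 × Zm) : J2 hs (s1 gd u) = h1 (X.Q5 (iT u)) := by
  have h : (J2 hs).comp (s1 gd) = (h1.comp X.Q5).comp iT := by
    have e : ∀ v : F2, X.Q5 (iT (v, 1)) = X.p (κT v) := by
      intro v
      rw [Wheel.Q5_apply, iT_apply]; simp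
    refine ft_ext ?_ ?_ ?_
    · change J2 hs (gx, pw gd 1) = h1 (X.Q5 (iT (gx, 1)))
      rw [pw_one', J2_left, e]
    · change J2 hs (gd, pw gd 1) = h1 (X.Q5 (iT (gd, 1)))
      rw [pw_one', J2_left, e]
    · change J2 hs (1, pw gd (Multiplicative.ofAdd 1)) = h1 (X.Q5 (iT (1, Multiplicative.ofAdd 1)))
      have e2 : X.Q5 (iT (1, Multiplicative.ofAdd 1)) = X.q X.δ' := by
        rw [Wheel.Q5_apply, iT_apply]; simp
      rw [pw_ofAdd_one, J2_right, κS_false, e2, hs.rB]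
  exact DFunLike.congr_fun h u

end

end Pool.TPW
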