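import Pool.Agent.Lib.TPG.Def
import Pool.Agent.Lib.GSP.Hn

/-!
# Faithful graphs of groups with one edge
-/

namespace Pool.TPG

open Function Monoid Pool.GSP

namespace Graph

variable {K T E : Type} [Group K]

theorem faithful_of_empty (Y : Graph K T E) (h : ∀ e δ t, ¬ Y.inc e δ t) : Y.Faithful := by
  intro e δ t x hx
  cases hx with
  | one h1 _ => exact absurd h1 (h _ _ _)
  | cons h1 _ _ _ _ => exact absurd h1 (h _ _ _)

/-- one edge with two different ends: amalgamated product -/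
theorem faithful_am {H W : Type} {F : Bool → Type} [Group H] [Group W] [∀ i, Group (F i)]
    (X : Am H W F) (f : W →* K) (hf : Injective f) (Y : Graph K T E) (e0 : E) (t0 : Bool → T)
    (φ : Bool → Bool) (hφ : ∀ δ, φ (!δ) = !φ δ) (ht : t0 false ≠ t0 true)
    (hinc : ∀ e δ t, Y.inc e δ t → e = e0 ∧ t = t0 (φ δ)) (hb : ∀ δ, Y.b e0 δ = 1)
    (hver : ∀ i w, w ∈ Y.ver (t0 i) → ∃ u, w = f (X.e i u))
    (hedg : ∀ δ h, f (X.e (φ δ) (X.κ (φ δ) h)) ∈ Y.edg e0 δ (t0 (φ δ))) : Y.Faithful := by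
  have ht' : ∀ i j, t0 i = t0 j → i = j := by
    intro i j h
    cases i <;> cases j
    · rfl
    · exact absurd h ht
    · exact absurd h.symm ht
    · rfl
  have hφ' : ∀ i j, φ i = φ j → i = j := by
    intro i j h
    have h1 := hφ false
    rw [Bool.not_false] at h1
    cases i <;> cases j
    · rfl
    · rw [h1] at h
      cases h2 : φ false <;> simp [h2] at h
    · rw [h1] at h
      cases h2 : φ false <;> simp [h2] at h
    · rfl
  have key : ∀ e δ t x, Y.Path e δ t x → ∃ j g, x = f g ∧ X.AP (φ δ) j g ∧ t = t0 j := by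
    intro e δ t x hx
    induction hx with
    | @one e δ t w h1 h2 =>
      obtain ⟨rfl, rfl⟩ := hinc _ _ _ h1
      obtain ⟨u, rfl⟩ := hver _ _ h2
      refine ⟨φ δ, X.e _ u, ?_, Am.AP.single _ u, rfl⟩
      rw [hb, hb, inv_one, one_mul, one_mul]
    | @cons e δ t w e' δ' t' x h1 h2 h3 h4 _ ih =>
      obtain ⟨rfl, rfl⟩ := hinc _ _ _ h1
      obtain ⟨u, rfl⟩ := hver _ _ h2
      obtain ⟨j, g, rfl, h6, rfl⟩ := ih
      obtain ⟨rfl, h7⟩ := hinc _ _ _ h3
      have h8 : δ = !δ' := hφ' _ _ (ht' _ _ h7)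
      have h9 : δ' = !δ := by rw [h8, Bool.not_not]
      subst h9
      rw [hφ] at h6
      refine ⟨j, X.e _ u * g, ?_, Am.AP.cons u ?_ h6, rfl⟩
      · rw [hb, hb, inv_one, one_mul, one_mul, map_mul]
      · rintro ⟨h, hh⟩
        refine h4 ⟨rfl, rfl, ?_⟩
        rw [← hh]
        exact hedg δ h
  intro e δ t x hx hi
  obtain ⟨j, g, rfl, h1, rfl⟩ := key e δ t x hx
  obtain ⟨-, h2⟩ := hinc _ _ _ hi
  have h3 : j = !φ δ := by rw [ht' _ _ h2, hφ]
  have h4 : φ δ ≠ j := by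
    rw [h3]
    cases φ δ <;> simp
  intro h5
  exact h1.ne_one X h4 ((map_eq_one_iff f hf).1 h5)

/-- one edge with both ends at the same vertex: HNN extension -/
theorem faithful_hn {H W U : Type} [Group H] [Group W] [Group U]
    (X : Hn H W U) (f : U →* K) (hf : Injective f) (Y : Graph K T E) (e0 : E) (t0 : T)
    (φ : Bool → Bool) (hφ : ∀ δ, φ (!δ) = !φ δ)
    (hinc : ∀ e δ t, Y.inc e δ t → e = e0 ∧ t = t0)
    (hb : ∀ δ, (Y.b e0 (!δ))⁻¹ * Y.b e0 δ = f (X.letter (φ δ)))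
    (hver : ∀ w ∈ Y.ver t0, ∃ u, w = f (X.inc u))
    (hedg : ∀ δ h, f (X.inc (X.cd (φ δ) h)) ∈ Y.edg e0 δ t0) : Y.Faithful := by
  have hφ' : ∀ i j, φ j = !φ i → j = !i := by
    intro i j h
    have h1 := hφ false
    rw [Bool.not_false] at h1
    cases i <;> cases j
    · cases h2 : φ false <;> simp [h2] at h
    · rfl
    · rfl
    · cases h2 : φ true <;> simp [h2] at h
  have key : ∀ e δ t x, Y.Path e δ t x → ∃ g, x = f g ∧ X.RP (φ δ) g := by
    intro e δ t x hx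
    induction hx with
    | @one e δ t w h1 h2 =>
      obtain ⟨rfl, rfl⟩ := hinc _ _ _ h1
      obtain ⟨u, rfl⟩ := hver _ h2
      refine ⟨X.letter (φ δ) * X.inc u, ?_, Hn.RP.single _ u⟩
      rw [hb, map_mul]
    | @cons e δ t w e' δ' t' x h1 h2 h3 h4 _ ih =>
      obtain ⟨rfl, rfl⟩ := hinc _ _ _ h1
      obtain ⟨u, rfl⟩ := hver _ h2
      obtain ⟨g, rfl, h6⟩ := ih
      obtain ⟨rfl, h7⟩ := hinc _ _ _ h3
      refine ⟨X.letter (φ δ) * X.inc u * g, ?_, Hn.RP.cons ?_ h6⟩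
      · rw [hb, map_mul, map_mul]
      · rintro ⟨h8, h, hh⟩
        refine h4 ⟨rfl, hφ' _ _ h8, ?_⟩
        rw [← hh]
        exact hedg δ h
  intro e δ t x hx _ h5
  obtain ⟨g, rfl, h1⟩ := key e δ t x hx
  exact h1.ne_one X ((map_eq_one_iff f hf).1 h5)

end Graph

end Pool.TPG
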