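import Pool.Agent.Lib.GSP.WheelHom

/-!
# Realisations of a pinwheel

The relations of a complex of groups of a pinwheel in an arbitrary group give the relations of the
pinwheel group.
-/

namespace Pool.TPW

open Function Monoid Pool.GSP

variable {A B G0 G1 : Type} [Group A] [Group B] [Group G0] [Group G1] (X : Wheel A B G0 G1)

/-- the relations of the complex of groups of a pinwheel -/
structure Real (U : Type*) [Group U] where
  j0 : G0 →* U
  j1 : G1 →* U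
  j2 : F2 × F2 →* U
  k1 : NN (pw X.μ) →* U
  k2 : F2 × Zm →* U
  l1 : F2 × Zm →* U
  l2 : NN (pw X.ν) →* U
  p1 : U
  p2 : U
  p3 : U
  p4 : U
  p5 : U
  q1 : U
  q2 : U
  q3 : U
  q4 : U
  q5 : U
  q6 : U
  r1 : U
  r2 : U
  r3 : U
  r4 : U
  r5 : U
  r6 : U
  e_p1 : ∀ u, j0 (X.P1 u) * p1 = p1 * k1 u
  e_p2 : ∀ u, j1 (X.P2 u) * p2 = p2 * k1 (jA (pw X.μ) u)
  e_p3 : ∀ u, j2 (s2 gd u) * p3 = p3 * k1 (X.fM u)
  e_p4 : ∀ u, j2 (s2 gx u) * p4 = p4 * k2 (iT u)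
  e_p5 : ∀ u, j2 (s2 dy u) * p5 = p5 * k2 (X.iT' u)
  e_q1 : ∀ u, j0 (X.Q1 u) * q1 = q1 * l2 (jA (pw X.ν) u)
  e_q2 : ∀ u, j0 (X.Q2 u) * q2 = q2 * l2 (X.aN' u)
  e_q3 : ∀ u, j2 (s1 gx u) * q3 = q3 * l2 (X.fN u)
  e_q4 : ∀ u, j2 (s1 dy u) * q4 = q4 * l2 (X.fN' u)
  e_q5 : ∀ u, j1 (X.Q5 u) * q5 = q5 * l1 u
  e_q6 : ∀ u, j2 (s1 gd u) * q6 = q6 * l1 (iT u)
  tri1 : p1 = q1 * r1
  tri2 : p1 = q2 * r2
  tri3 : p3 = q3 * r1
  tri4 : p3 = q4 * r2
  tri5 : p4 = q3 * r3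
  tri6 : p4 * k2 tT = q4 * r3
  tri7 : p5 = q3 * r4
  tri8 : p5 * k2 (X.Φ tT) = q4 * (l2 X.w * r4)
  tri9 : p4 = q6 * r5
  tri10 : p5 = q6 * (l1 tT * r5)
  tri11 : p2 = q5 * r6
  tri12 : p3 = q6 * r6

namespace Real

variable {X} {U : Type*} [Group U] (R : Real X U)

/-- the path from the first to the third brick -/
def cc : U := R.p1 * (R.p3)⁻¹

/-- the path from the first to the second brick -/
def aa : U := R.p1 * (R.p2)⁻¹

theorem cc_eq1 : R.cc = R.q1 * (R.q3)⁻¹ := by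
  rw [cc, R.tri1, R.tri3]
  group

theorem cc_eq2 : R.cc = R.q2 * (R.q4)⁻¹ := by
  rw [cc, R.tri2, R.tri4]
  group

theorem aa_eq : R.aa * R.q5 = R.cc * R.q6 := by
  rw [aa, cc, R.tri11, R.tri12]
  group

/-- the homomorphism on `G0` -/
def h0 : G0 →* U := R.j0

/-- the homomorphism on `G1` -/
def h1 : G1 →* U := (MulAut.conj R.aa).toMonoidHom.comp R.j1

theorem h1_apply (z : G1) : R.h1 z = R.aa * (R.j1 z) * R.aa⁻¹ := rfl

/-- the image of `t` -/
def tt : U := R.q2 * (R.q1)⁻¹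

theorem eqC : R.h1 (X.p gx) = R.cc * (R.j2 (gx, 1)) * R.cc⁻¹ := by
  have e1 := R.e_q5 (gx, 1)
  have e2 := R.e_q6 (gx, 1)
  change (R.j1 (X.Q5 (gx, 1))) * _ = _ * (R.l1 (gx, 1)) at e1
  change (R.j2 (gx, pw gd 1)) * _ = _ * (R.l1 (κT gx, 1)) at e2
  rw [X.Q5_apply, map_one, map_one, mul_one] at e1
  rw [map_one, κT_true] at e2
  have e3 : (R.j1 (X.p gx)) = R.q5 * (R.l1 (gx, 1)) * (R.q5)⁻¹ := by
    rw [← e1]; group
  have e4 : (R.j2 (gx, 1)) = R.q6 * (R.l1 (gx, 1)) * (R.q6)⁻¹ := by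
    rw [← e2]; group
  rw [h1_apply, e3, e4]
  have e5 : R.aa = R.cc * R.q6 * (R.q5)⁻¹ := by
    rw [← R.aa_eq]; group
  rw [e5]
  group

theorem eqD : R.h1 (X.p gd) = R.cc * (R.p5 * (R.p4)⁻¹) * R.cc⁻¹ := by
  have e1 := R.e_q5 (gd, 1)
  change (R.j1 (X.Q5 (gd, 1))) * _ = _ * (R.l1 tT) at e1
  rw [X.Q5_apply, map_one, map_one, mul_one] at e1
  have e3 : (R.j1 (X.p gd)) = R.q5 * (R.l1 tT) * (R.q5)⁻¹ := by
    rw [← e1]; group
  rw [h1_apply, e3, R.tri10, R.tri9]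
  have e5 : R.aa = R.cc * R.q6 * (R.q5)⁻¹ := by
    rw [← R.aa_eq]; group
  rw [e5]
  group

theorem eqB (b : F2) : R.h0 (X.g (κS X.δ' b)) = R.cc * (R.j2 (1, b)) * R.cc⁻¹ := by
  have e1 := R.e_p1 (X.fM (b, 1))
  have e2 := R.e_p3 (b, 1)
  change (R.j0 (X.P1 (X.fM (b, 1)))) * _ = _ * (R.k1 (X.fM (b, 1))) at e1
  change (R.j2 (pw gd 1, b)) * _ = _ * (R.k1 (X.fM (b, 1))) at e2
  rw [X.P1_apply, Wheel.fM, jF_apply] at e1
  simp only [map_one, mul_one] at e1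
  rw [map_one] at e2
  have e3 : R.h0 (X.g (κS X.δ' b)) = R.p1 * (R.k1 (X.fM (b, 1))) * (R.p1)⁻¹ := by
    have e4 : R.h0 (X.g (κS X.δ' b)) * R.p1 = R.p1 * (R.k1 (X.fM (b, 1))) := e1
    rw [← e4]; group
  have e4 : (R.j2 (1, b)) = R.p3 * (R.k1 (X.fM (b, 1))) * (R.p3)⁻¹ := by
    rw [← e2]; group
  rw [e3, e4, cc]
  group

theorem evN_eq (n : NN (pw X.ν)) :
    X.evN R.h0 R.h1 n = R.q1 * (R.l2 n) * (R.q1)⁻¹ := by
  let F : NN (pw X.ν) →* U := (MulAut.conj (R.q1)).toMonoidHom.comp (R.l2)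
  have e0 : ∀ z : EN (pw X.ν), F (jA (pw X.ν) z) = R.h0 (X.Q1 z) := by
    intro z
    have e1 := R.e_q1 z
    change R.h0 (X.Q1 z) * _ = _ * (R.l2 (jA (pw X.ν) z)) at e1
    change R.q1 * (R.l2 (jA (pw X.ν) z)) * (R.q1)⁻¹ = _
    rw [← e1]; group
  have e1 : F.comp SemidirectProduct.inl = sgLift (R.h0.comp X.f) (R.h1 (X.p (FreeGroup.of true))) := by
    refine sg_ext (fun a => ?_) ?_
    · rw [sgLift_inl]
      have e2 := e0 (SemidirectProduct.inl a)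
      rw [X.Q1_apply] at e2
      have e3 : X.f (SemidirectProduct.inl a : EN (pw X.ν)).left *
          X.g (pw xS (SemidirectProduct.inl a : EN (pw X.ν)).right) = X.f a := by
        simp
      rw [e3] at e2
      refine Eq.trans ?_ e2
      rw [MonoidHom.comp_apply]
      congr 1
    · rw [sgLift_x, R.eqC, R.cc_eq1]
      have e2 := R.e_q3 (gx, 1)
      change (R.j2 (gx, pw gx 1)) * _ = _ * (R.l2 (X.fN (gx, 1))) at e2
      have e3 : X.fN (gx, 1) = SemidirectProduct.inl xS := by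
        rw [Wheel.fN, jF_apply]
        simp only [κS_true]
        rfl
      rw [map_one, e3] at e2
      have e4 : (R.j2 (gx, 1)) =
          R.q3 * (R.l2 (SemidirectProduct.inl xS)) * (R.q3)⁻¹ := by
        rw [← e2]; group
      rw [e4]
      change R.q1 * (R.l2 (SemidirectProduct.inl xS)) * (R.q1)⁻¹ = _
      group
  have e2 : F (SemidirectProduct.inr (Multiplicative.ofAdd 1)) = R.h0 (X.g xS) := by
    have e3 := e0 (SemidirectProduct.inr (Multiplicative.ofAdd 1))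
    rw [X.Q1_apply] at e3
    have e4 : X.f (SemidirectProduct.inr (Multiplicative.ofAdd 1) : EN (pw X.ν)).left *
        X.g (pw xS (SemidirectProduct.inr (Multiplicative.ofAdd 1) : EN (pw X.ν)).right) =
        X.g xS := by
      simp
    rw [e4] at e3
    refine Eq.trans ?_ e3
    congr 1
    rw [jA, SemidirectProduct.map_inr]
    rfl
  have e3 : F.comp SemidirectProduct.inr = pw (R.h0 (X.g xS)) := zm_ext (by
    rw [pw_ofAdd_one]; exact e2)
  rw [Wheel.evN, ← e1, ← e3]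
  change F (SemidirectProduct.inl n.left) * F (SemidirectProduct.inr n.right) = F n
  rw [← map_mul]
  congr 1
  exact (SemidirectProduct.mk_eq_inl_mul_inr n.right n.left).symm

theorem tt_eq : R.tt = R.cc * R.p4 * (R.k2 (gd, 1)) * (R.p4)⁻¹ * R.cc⁻¹ := by
  have e1 : R.p4 * (R.k2 (gd, 1)) = R.q4 * R.r3 := R.tri6
  have e2 : R.cc * R.p4 * (R.k2 (gd, 1)) * (R.p4)⁻¹ * R.cc⁻¹ =
      R.cc * (R.p4 * (R.k2 (gd, 1))) * (R.p4)⁻¹ * R.cc⁻¹ := by group
  rw [e2, e1, R.tri5, tt]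
  nth_rewrite 1 [R.cc_eq2]
  rw [R.cc_eq1]
  group

theorem evM_eq (m : F2 × Zm) : X.evM R.h0 R.h1 R.tt m =
    R.cc * R.p4 * (R.k2 m) * (R.p4)⁻¹ * R.cc⁻¹ := by
  let F : F2 × Zm →* U :=
    (MulAut.conj (R.cc * R.p4)).toMonoidHom.comp (R.k2)
  have hF : ∀ m, F m = R.cc * R.p4 * (R.k2 m) * (R.p4)⁻¹ * R.cc⁻¹ := by
    intro m
    change R.cc * R.p4 * (R.k2 m) * (R.cc * R.p4)⁻¹ = _
    group
  have e1 : F.comp (MonoidHom.inl F2 Zm) =
      FreeGroup.lift (fun b => bif b then R.h0 (X.g xS) else R.tt) := by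
    refine FreeGroup.ext_hom _ _ ?_
    rintro (_ | _)
    · rw [FreeGroup.lift_apply_of]
      exact (hF (gd, 1)).trans R.tt_eq.symm
    · rw [FreeGroup.lift_apply_of]
      simp only [cond_true]
      have e2 := R.e_p4 (gx, 1)
      change (R.j2 (pw gx 1, gx)) * _ = _ * (R.k2 (κT gx, 1)) at e2
      rw [map_one, κT_true] at e2
      have e3 := R.eqB gx
      rw [κS_true] at e3
      refine (hF (gx, 1)).trans ?_
      rw [e3]
      have e4 : (R.j2 (1, gx)) = R.p4 * (R.k2 (gx, 1)) * (R.p4)⁻¹ := by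
        rw [← e2]; group
      rw [e4]
      group
  have e3 : F.comp (MonoidHom.inr F2 Zm) = pw (R.h1 (X.p (FreeGroup.of true))) := by
    refine zm_ext ?_
    rw [pw_ofAdd_one, R.eqC]
    refine (hF (1, Multiplicative.ofAdd 1)).trans ?_
    have e2 := R.e_p4 (1, Multiplicative.ofAdd 1)
    change (R.j2 (pw gx (Multiplicative.ofAdd 1), 1)) * _ =
      _ * (R.k2 (κT 1, Multiplicative.ofAdd 1)) at e2
    rw [pw_ofAdd_one, map_one κT] at e2
    have e4 : (R.j2 (gx, 1)) =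
        R.p4 * (R.k2 (1, Multiplicative.ofAdd 1)) * (R.p4)⁻¹ := by
      rw [← e2]; group
    rw [e4]
    group
  rw [← hF, Wheel.evM, ← e1, ← e3]
  change F (m.1, 1) * F (1, m.2) = F m
  rw [← map_mul]
  congr 1
  refine Prod.ext ?_ ?_ <;> simp

theorem satU : X.Sat R.h0 R.h1 R.tt where
  r0 := by
    have e1 := R.e_p1 (SemidirectProduct.inr (Multiplicative.ofAdd 1))
    have e2 := R.e_p2 (SemidirectProduct.inr (Multiplicative.ofAdd 1))
    change (R.j0 (X.P1 (SemidirectProduct.inr (Multiplicative.ofAdd 1)))) * _ =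
      _ * (R.k1 (SemidirectProduct.inr (Multiplicative.ofAdd 1))) at e1
    change (R.j1 (X.P2 (SemidirectProduct.inr (Multiplicative.ofAdd 1)))) * _ =
      _ * (R.k1 (jA (pw X.μ) (SemidirectProduct.inr (Multiplicative.ofAdd 1)))) at e2
    have e3 : X.P1 (SemidirectProduct.inr (Multiplicative.ofAdd 1)) = X.f X.δ := by
      rw [Wheel.P1_apply]; simp
    have e4 : X.P2 (SemidirectProduct.inr (Multiplicative.ofAdd 1)) = X.p cmF := by
      rw [Wheel.P2_apply]; simp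
    have e5 : jA (pw X.μ) (SemidirectProduct.inr (Multiplicative.ofAdd 1)) =
        SemidirectProduct.inr (Multiplicative.ofAdd 1) := by
      rw [jA, SemidirectProduct.map_inr]; rfl
    rw [e3] at e1
    rw [e4, e5] at e2
    rw [h1_apply]
    change (R.j0 (X.f X.δ)) = _
    have e6 : (R.j0 (X.f X.δ)) = R.p1 *
        (R.k1 (SemidirectProduct.inr (Multiplicative.ofAdd 1))) * (R.p1)⁻¹ := by
      rw [← e1]; group
    have e7 : (R.j1 (X.p cmF)) = R.p2 *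
        (R.k1 (SemidirectProduct.inr (Multiplicative.ofAdd 1))) * (R.p2)⁻¹ := by
      rw [← e2]; group
    rw [e6, e7, aa]
    group
  rB b := by
    have e1 := R.e_p1 (SemidirectProduct.inl (Coprod.inl b))
    have e2 := R.e_p2 (SemidirectProduct.inl b)
    change (R.j0 (X.P1 (SemidirectProduct.inl (Coprod.inl b)))) * _ =
      _ * (R.k1 (SemidirectProduct.inl (Coprod.inl b))) at e1
    change (R.j1 (X.P2 (SemidirectProduct.inl b))) * _ =
      _ * (R.k1 (jA (pw X.μ) (SemidirectProduct.inl b))) at e2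
    have e3 : X.P1 (SemidirectProduct.inl (Coprod.inl b)) = X.g (Coprod.inl b) := by
      rw [Wheel.P1_apply]; simp
    have e4 : X.P2 (SemidirectProduct.inl b) = X.q b := by
      rw [Wheel.P2_apply]; simp
    have e5 : jA (pw X.μ) (SemidirectProduct.inl b) =
        SemidirectProduct.inl (Coprod.inl b) := by
      rw [jA, SemidirectProduct.map_inl]
    rw [e3] at e1
    rw [e4, e5] at e2
    rw [h1_apply]
    change (R.j0 (X.g (Coprod.inl b))) = _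
    have e6 : (R.j0 (X.g (Coprod.inl b))) = R.p1 *
        (R.k1 (SemidirectProduct.inl (Coprod.inl b))) * (R.p1)⁻¹ := by
      rw [← e1]; group
    have e7 : (R.j1 (X.q b)) = R.p2 *
        (R.k1 (SemidirectProduct.inl (Coprod.inl b))) * (R.p2)⁻¹ := by
      rw [← e2]; group
    rw [e6, e7, aa]
    group
  rxy := by
    have e1 := R.eqB gx
    rw [κS_true] at e1
    rw [R.eqC, e1]
    have e2 : (R.j2 (gx, 1)) * (R.j2 (1, gx)) =
        (R.j2 (1, gx)) * (R.j2 (gx, 1)) := by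
      rw [← map_mul, ← map_mul]
      congr 1
    calc R.cc * (R.j2 (gx, 1)) * R.cc⁻¹ * (R.cc * (R.j2 (1, gx)) * R.cc⁻¹)
        = R.cc * ((R.j2 (gx, 1)) * (R.j2 (1, gx))) * R.cc⁻¹ := by group
      _ = _ := by rw [e2]; group
  ry := by
    have e1 : R.h0 (X.g xS) = X.evM R.h0 R.h1 R.tt (gx, 1) := by
      rw [Wheel.evM]
      simp
    have e2 : R.tt = X.evM R.h0 R.h1 R.tt (gd, 1) := by
      rw [Wheel.evM]
      simp
    have e3 := R.eqB dy
    rw [κS_dy] at e3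
    have e4 := R.e_p4 (dy, 1)
    change (R.j2 (pw gx 1, dy)) * _ = _ * (R.k2 (κT dy, 1)) at e4
    rw [map_one] at e4
    have e5 : (R.j2 (1, dy)) = R.p4 * (R.k2 (κT dy, 1)) * (R.p4)⁻¹ := by
      rw [← e4]; group
    have e6 : (R.k2 (gd, 1)) * (R.k2 (gx, 1)) =
        (R.k2 (κT dy, 1)) * (R.k2 (gd, 1)) := by
      rw [← map_mul, ← map_mul, κT_dy]
      congr 1
      refine Prod.ext ?_ ?_
      · simp only [Prod.fst_mul]
        group
      · simp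
    have e1' := e1.trans (R.evM_eq _)
    rw [e3, e5, e1', R.tt_eq]
    calc R.cc * R.p4 * (R.k2 (gd, 1)) * (R.p4)⁻¹ * R.cc⁻¹ *
          (R.cc * R.p4 * (R.k2 (gx, 1)) * (R.p4)⁻¹ * R.cc⁻¹)
        = R.cc * R.p4 * ((R.k2 (gd, 1)) * (R.k2 (gx, 1))) * (R.p4)⁻¹ *
          R.cc⁻¹ := by group
      _ = _ := by rw [e6]; group
  rx := by
    have e1 : R.h1 (X.p (FreeGroup.of true)) =
        X.evM R.h0 R.h1 R.tt (1, Multiplicative.ofAdd 1) := by
      rw [Wheel.evM]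
      simp
    have e6 : (R.k2 (1, Multiplicative.ofAdd 1)) * (R.k2 (gd, 1)) =
        (R.k2 (gd, 1)) * (R.k2 (1, Multiplicative.ofAdd 1)) := by
      rw [← map_mul, ← map_mul]
      congr 1
    rw [e1, R.evM_eq, R.tt_eq]
    calc R.cc * R.p4 * (R.k2 (1, Multiplicative.ofAdd 1)) * (R.p4)⁻¹ * R.cc⁻¹ *
          (R.cc * R.p4 * (R.k2 (gd, 1)) * (R.p4)⁻¹ * R.cc⁻¹)
        = R.cc * R.p4 * ((R.k2 (1, Multiplicative.ofAdd 1)) * (R.k2 (gd, 1))) *
          (R.p4)⁻¹ * R.cc⁻¹ := by group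
      _ = _ := by rw [e6]; group
  rA a := by
    have e1 := R.e_q2 (SemidirectProduct.inl a)
    change (R.j0 (X.Q2 (SemidirectProduct.inl a))) * _ =
      _ * (R.l2 (X.Ψ (jA (pw X.ν') (SemidirectProduct.inl a)))) at e1
    have e2 : X.Q2 (SemidirectProduct.inl a) = X.f' a := by
      rw [Wheel.Q2_apply]; simp
    have e3 : jA (pw X.ν') (SemidirectProduct.inl a) = SemidirectProduct.inl (Coprod.inl a) := by
      rw [jA, SemidirectProduct.map_inl]
    rw [e2, e3] at e1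
    rw [R.evN_eq, tt]
    change (R.j0 (X.f' a)) * _ = _
    rw [← mul_assoc, e1]
    group
  rs := by
    have e1 := R.eqB gx
    rw [κS_true] at e1
    have e2 := R.e_p5 (gx, 1)
    change (R.j2 (pw dy 1, gx)) * _ = _ * (R.k2 (X.Φ (κT gx, 1))) at e2
    rw [map_one, κT_true] at e2
    rw [e1, R.eqD, R.evM_eq]
    calc R.cc * (R.j2 (1, gx)) * R.cc⁻¹ * (R.cc * (R.p5 * (R.p4)⁻¹) * R.cc⁻¹)
        = R.cc * ((R.j2 (1, gx)) * R.p5) * (R.p4)⁻¹ * R.cc⁻¹ := by group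
      _ = _ := by rw [e2]; group
  rt := by
    have e1 : R.q4 * ((R.l2 X.w) * R.r4) = R.p5 * (R.k2 (X.Φ (gd, 1))) :=
      R.tri8.symm
    rw [R.evN_eq, R.eqD, R.evM_eq, tt]
    calc R.q2 * (R.q1)⁻¹ * (R.q1 * (R.l2 X.w) * (R.q1)⁻¹) *
          (R.cc * (R.p5 * (R.p4)⁻¹) * R.cc⁻¹)
        = R.q2 * (R.l2 X.w) * ((R.q1)⁻¹ * R.cc * R.p5) * (R.p4)⁻¹ *
          R.cc⁻¹ := by group
      _ = R.q2 * (R.l2 X.w) * R.r4 * (R.p4)⁻¹ * R.cc⁻¹ := by
          have e2 : (R.q1)⁻¹ * R.cc * R.p5 = R.r4 := by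
            rw [R.cc_eq1, R.tri7]
            group
          rw [e2]
      _ = R.q2 * (R.q4)⁻¹ * (R.q4 * ((R.l2 X.w) * R.r4)) *
          (R.p4)⁻¹ * R.cc⁻¹ := by group
      _ = _ := by
          rw [e1, ← R.cc_eq2]
          group


end Real

end Pool.TPW
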