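import Pool.Agent.Lib.TPW.Inst
import Pool.Agent.Lib.TPW.Real

/-!
# The pinwheel group and the group of its T-plan
-/

namespace Pool.TPW

open Function Monoid Pool.GSP Pool.TPG

variable {A B G0 G1 : Type} [Group A] [Group B] [Group G0] [Group G1] (X : Wheel A B G0 G1)

theorem cor {v : Wl} {ε : Bool} {h : Wl} {δ : Bool} {t : Br} (i : (plan X).inc v ε t)
    (j : (plan X).inc' h δ t) {k : Bool × Bool} (hk : jn (st v ε h) ε δ = k) :
    (plan X).lv i = (plan X).lh j * (((plan X).ofWall' h (bb' X v ε h δ))⁻¹ *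
      ((plan X).lj v h k * (plan X).ofWall v (bb X v ε h δ))) := by
  have h1 := (plan X).rel_corner (v := v) (ε := ε) (h := h) (δ := δ) (t := t) ⟨i, j⟩
  change (plan X).ofWall' h (bb' X v ε h δ) * ((plan X).lh j)⁻¹ *
    ((plan X).ofBrick t 1)⁻¹ * (plan X).lv i =
      (plan X).lj v h (jn (st v ε h) ε δ) * (plan X).ofWall v (bb X v ε h δ) at h1
  rw [hk, map_one, inv_one, mul_one] at h1
  rw [← h1]
  group

theorem aux6 {U : Type*} [Group U] {p q r y y' : U} (h : p = q * (r * y')) (hy : y' = y⁻¹) :
    p * y = q * r := by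
  rw [h, hy]
  group

theorem aux8 {U : Type*} [Group U] {p q r y y' l l' : U} (h : p = q * (l'⁻¹ * (r * y')))
    (hy : y' = y⁻¹) (hl : l'⁻¹ = l) : p * y = q * (l * r) := by
  rw [h, hy, hl]
  group

/-- the relations of the pinwheel hold in the group of its plan -/
noncomputable def real : Real X (plan X).Grp where
  j0 := (plan X).ofBrick Br.b0
  j1 := (plan X).ofBrick Br.b1
  j2 := (plan X).ofBrick Br.b2
  k1 := (plan X).ofWall Wl.one
  k2 := (plan X).ofWall Wl.two
  l1 := (plan X).ofWall' Wl.one
  l2 := (plan X).ofWall' Wl.two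
  p1 := (plan X).lv (v := Wl.one) (ε := true) (t := Br.b0) trivial
  p2 := (plan X).lv (v := Wl.one) (ε := false) (t := Br.b1) trivial
  p3 := (plan X).lv (v := Wl.one) (ε := false) (t := Br.b2) trivial
  p4 := (plan X).lv (v := Wl.two) (ε := true) (t := Br.b2) trivial
  p5 := (plan X).lv (v := Wl.two) (ε := false) (t := Br.b2) trivial
  q1 := (plan X).lh (h := Wl.two) (δ := false) (t := Br.b0) trivial
  q2 := (plan X).lh (h := Wl.two) (δ := true) (t := Br.b0) trivial
  q3 := (plan X).lh (h := Wl.two) (δ := false) (t := Br.b2) trivial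
  q4 := (plan X).lh (h := Wl.two) (δ := true) (t := Br.b2) trivial
  q5 := (plan X).lh (h := Wl.one) (δ := false) (t := Br.b1) trivial
  q6 := (plan X).lh (h := Wl.one) (δ := true) (t := Br.b2) trivial
  r1 := (plan X).lj Wl.one Wl.two (false, false)
  r2 := (plan X).lj Wl.one Wl.two (true, false)
  r3 := (plan X).lj Wl.two Wl.two (true, true)
  r4 := (plan X).lj Wl.two Wl.two (false, true)
  r5 := (plan X).lj Wl.two Wl.one (true, false)
  r6 := (plan X).lj Wl.one Wl.one (false, true)
  e_p1 u := (plan X).rel_side (v := Wl.one) (ε := true) (t := Br.b0) trivial u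
  e_p2 u := (plan X).rel_side (v := Wl.one) (ε := false) (t := Br.b1) trivial u
  e_p3 u := (plan X).rel_side (v := Wl.one) (ε := false) (t := Br.b2) trivial u
  e_p4 u := (plan X).rel_side (v := Wl.two) (ε := true) (t := Br.b2) trivial u
  e_p5 u := (plan X).rel_side (v := Wl.two) (ε := false) (t := Br.b2) trivial u
  e_q1 u := (plan X).rel_side' (h := Wl.two) (δ := false) (t := Br.b0) trivial u
  e_q2 u := (plan X).rel_side' (h := Wl.two) (δ := true) (t := Br.b0) trivial u
  e_q3 u := (plan X).rel_side' (h := Wl.two) (δ := false) (t := Br.b2) trivial u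
  e_q4 u := (plan X).rel_side' (h := Wl.two) (δ := true) (t := Br.b2) trivial u
  e_q5 u := (plan X).rel_side' (h := Wl.one) (δ := false) (t := Br.b1) trivial u
  e_q6 u := (plan X).rel_side' (h := Wl.one) (δ := true) (t := Br.b2) trivial u
  tri1 := by
    have h := cor X (v := Wl.one) (ε := true) (h := Wl.two) (δ := false) (t := Br.b0)
      trivial trivial (jn_false (fun h => h) _ _)
    change _ = _ * (((plan X).ofWall' Wl.two 1)⁻¹ * (_ * (plan X).ofWall Wl.one 1)) at h
    rwa [map_one, map_one, inv_one, one_mul, mul_one] at h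
  tri2 := by
    have h := cor X (v := Wl.one) (ε := true) (h := Wl.two) (δ := true) (t := Br.b0)
      trivial trivial (jn_false (fun h => h) _ _)
    change _ = _ * (((plan X).ofWall' Wl.two 1)⁻¹ * (_ * (plan X).ofWall Wl.one 1)) at h
    rwa [map_one, map_one, inv_one, one_mul, mul_one] at h
  tri3 := by
    have h := cor X (v := Wl.one) (ε := false) (h := Wl.two) (δ := false) (t := Br.b2)
      trivial trivial (jn_false (fun h => h) _ _)
    change _ = _ * (((plan X).ofWall' Wl.two 1)⁻¹ * (_ * (plan X).ofWall Wl.one 1)) at h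
    rwa [map_one, map_one, inv_one, one_mul, mul_one] at h
  tri4 := by
    have h := cor X (v := Wl.one) (ε := false) (h := Wl.two) (δ := true) (t := Br.b2)
      trivial trivial (jn_false (fun h => h) _ _)
    change _ = _ * (((plan X).ofWall' Wl.two 1)⁻¹ * (_ * (plan X).ofWall Wl.one 1)) at h
    rwa [map_one, map_one, inv_one, one_mul, mul_one] at h
  tri5 := by
    have h := cor X (v := Wl.two) (ε := true) (h := Wl.two) (δ := false) (t := Br.b2)
      trivial trivial (jn_true trivial _ _)
    change _ = _ * (((plan X).ofWall' Wl.two 1)⁻¹ * (_ * (plan X).ofWall Wl.two 1)) at h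
    rwa [map_one, map_one, inv_one, one_mul, mul_one] at h
  tri6 := by
    have h := cor X (v := Wl.two) (ε := true) (h := Wl.two) (δ := true) (t := Br.b2)
      trivial trivial (jn_true trivial _ _)
    change _ = _ * (((plan X).ofWall' Wl.two 1)⁻¹ *
      (_ * (plan X).ofWall Wl.two (tT⁻¹ : F2 × Zm))) at h
    rw [map_one, inv_one, one_mul] at h
    exact aux6 h (map_inv ((plan X).ofWall Wl.two) (tT : F2 × Zm))
  tri7 := by
    have h := cor X (v := Wl.two) (ε := false) (h := Wl.two) (δ := false) (t := Br.b2)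
      trivial trivial (jn_true trivial _ _)
    change _ = _ * (((plan X).ofWall' Wl.two 1)⁻¹ * (_ * (plan X).ofWall Wl.two 1)) at h
    rwa [map_one, map_one, inv_one, one_mul, mul_one] at h
  tri8 := by
    have h := cor X (v := Wl.two) (ε := false) (h := Wl.two) (δ := true) (t := Br.b2)
      trivial trivial (jn_true trivial _ _)
    change _ = _ * (((plan X).ofWall' Wl.two (X.w⁻¹ : NN (pw X.ν)))⁻¹ *
      (_ * (plan X).ofWall Wl.two ((X.Φ tT)⁻¹ : F2 × Zm))) at h
    have h1 : ((plan X).ofWall' Wl.two (X.w⁻¹ : NN (pw X.ν)))⁻¹ = (plan X).ofWall' Wl.two X.w := by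
      rw [inv_eq_iff_eq_inv]
      exact map_inv ((plan X).ofWall' Wl.two) (X.w : NN (pw X.ν))
    have h2 : (plan X).ofWall Wl.two ((X.Φ tT)⁻¹ : F2 × Zm) =
        ((plan X).ofWall Wl.two (X.Φ tT : F2 × Zm))⁻¹ :=
      map_inv ((plan X).ofWall Wl.two) (X.Φ tT : F2 × Zm)
    exact aux8 h h2 h1
  tri9 := by
    have h := cor X (v := Wl.two) (ε := true) (h := Wl.one) (δ := true) (t := Br.b2)
      trivial trivial (jn_false (fun h => h) _ _)
    change _ = _ * (((plan X).ofWall' Wl.one 1)⁻¹ * (_ * (plan X).ofWall Wl.two 1)) at h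
    rwa [map_one, map_one, inv_one, one_mul, mul_one] at h
  tri10 := by
    have h := cor X (v := Wl.two) (ε := false) (h := Wl.one) (δ := true) (t := Br.b2)
      trivial trivial (jn_false (fun h => h) _ _)
    change _ = _ * (((plan X).ofWall' Wl.one (tT⁻¹ : F2 × Zm))⁻¹ *
      (_ * (plan X).ofWall Wl.two 1)) at h
    have h1 : ((plan X).ofWall' Wl.one (tT⁻¹ : F2 × Zm))⁻¹ = (plan X).ofWall' Wl.one tT := by
      rw [inv_eq_iff_eq_inv]
      exact map_inv ((plan X).ofWall' Wl.one) (tT : F2 × Zm)
    rwa [h1, map_one, mul_one] at h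
  tri11 := by
    have h := cor X (v := Wl.one) (ε := false) (h := Wl.one) (δ := false) (t := Br.b1)
      trivial trivial (jn_true trivial _ _)
    change _ = _ * (((plan X).ofWall' Wl.one 1)⁻¹ * (_ * (plan X).ofWall Wl.one 1)) at h
    rwa [map_one, map_one, inv_one, one_mul, mul_one] at h
  tri12 := by
    have h := cor X (v := Wl.one) (ε := false) (h := Wl.one) (δ := true) (t := Br.b2)
      trivial trivial (jn_true trivial _ _)
    change _ = _ * (((plan X).ofWall' Wl.one 1)⁻¹ * (_ * (plan X).ofWall Wl.one 1)) at h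
    rwa [map_one, map_one, inv_one, one_mul, mul_one] at h

/-- the homomorphism to the group of the plan -/
noncomputable def toPlan : X.Pin →* (plan X).Grp := Wheel.lift (real X).satU

theorem toPlan_of0 (z : G0) : toPlan X (X.of0 z) = (plan X).ofBrick Br.b0 z :=
  Wheel.lift_of0 _ z

theorem toPlan_of1 (z : G1) : toPlan X (X.of1 z) =
    (real X).aa * (plan X).ofBrick Br.b1 z * (real X).aa⁻¹ :=
  Wheel.lift_of1 _ z

/-- the first brick embeds, from the theorem on T-plans -/
theorem of0_injective : Injective X.of0 := by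
  intro a b h
  have h1 := congrArg (toPlan X) h
  rw [toPlan_of0, toPlan_of0] at h1
  exact (plan X).ofBrick_injective Br.b0 h1

/-- the second brick embeds, from the theorem on T-plans -/
theorem of1_injective : Injective X.of1 := by
  intro a b h
  have h1 := congrArg (toPlan X) h
  rw [toPlan_of1, toPlan_of1] at h1
  exact (plan X).ofBrick_injective Br.b1 (mul_left_cancel (mul_right_cancel h1))

end Pool.TPW
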