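import Pool.Agent.Lib.TPW.WPlan

/-!
# The pinwheel as a T-plan, the conditions
-/

namespace Pool.TPW

open Function Monoid Pool.GSP Pool.TPG

variable {A B G0 G1 : Type} [Group A] [Group B] [Group G0] [Group G1] (X : Wheel A B G0 G1)

theorem jn_true {p : Prop} (h : p) (ε δ : Bool) : jn p ε δ = (ε, true) := by
  simp [jn, h]

theorem jn_false {p : Prop} (h : ¬ p) (ε δ : Bool) : jn p ε δ = (δ, false) := by
  simp [jn, h]

theorem uniq {v : Wl} {ε : Bool} {h : Wl} {δ : Bool} {t t' : Br} (h1 : inc v ε t)
    (h2 : inc' h δ t) (h3 : inc v ε t') (h4 : inc' h δ t') : t = t' := by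
  cases v <;> cases ε <;> cases h <;> cases δ <;> cases t <;> cases t' <;>
    first
      | rfl
      | exact False.elim h1
      | exact False.elim h2
      | exact False.elim h3
      | exact False.elim h4

theorem corner {v : Wl} {ε : Bool} {h : Wl} {δ : Bool} {t : Br} (h1 : inc v ε t)
    (h2 : inc' h δ t) : st v ε h ↔ ¬ st' h δ v := by
  cases v <;> cases ε <;> cases h <;> cases δ <;> cases t <;>
    first
      | exact False.elim h1
      | exact False.elim h2
      | exact ⟨fun h => h.elim, fun h => h trivial⟩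
      | exact ⟨fun _ h => h, fun _ => trivial⟩

theorem inj {v : Wl} {ε : Bool} {t : Br} (h1 : inc v ε t) :
    Injective (toG X v ε t) ∧ Injective (toN X v ε t) := by
  cases v <;> cases ε <;> cases t <;> first
    | exact False.elim h1
    | skip
  · exact ⟨X.P2_injective, X.jM_injective⟩
  · exact ⟨s2_injective (pw_of_injective false), X.fM_injective⟩
  · exact ⟨X.P1_injective, injective_id⟩
  · exact ⟨s2_injective pw_dy_injective, X.iT'_injective⟩
  · exact ⟨s2_injective (pw_of_injective true), hnT.inc_injective⟩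

theorem inj' {h : Wl} {δ : Bool} {t : Br} (h1 : inc' h δ t) :
    Injective (toG' X h δ t) ∧ Injective (toN' X h δ t) := by
  cases h <;> cases δ <;> cases t <;> first
    | exact False.elim h1
    | skip
  · exact ⟨X.Q5_injective, injective_id⟩
  · exact ⟨s1_injective (pw_of_injective false), hnT.inc_injective⟩
  · exact ⟨X.Q1_injective, X.jN_injective⟩
  · exact ⟨s1_injective (pw_of_injective true), X.fN_injective⟩
  · exact ⟨X.Q2_injective, X.aN'_injective⟩
  · exact ⟨s1_injective pw_dy_injective, X.fN'_injective⟩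

theorem ca {v : Wl} {ε : Bool} {h : Wl} {δ : Bool} {t : Br} (h1 : inc v ε t)
    (h2 : inc' h δ t) (z : Zm × Zm) :
    toG X v ε t (σ X v ε h δ t z) = toG' X h δ t (σ' X v ε h δ t z) := by
  cases v <;> cases ε <;> cases h <;> cases δ <;> cases t <;> first
    | exact False.elim h1
    | exact False.elim h2
    | rfl
    | skip
  · exact X.i1_injective (X.brick .t11 z)
  · exact X.i0_injective (X.brick .t1 z)
  · exact X.i0_injective (X.brick .t2 z)

theorem meet {v : Wl} {ε : Bool} {h : Wl} {δ : Bool} {t : Br} (h1 : inc v ε t)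
    (h2 : inc' h δ t) (s : S X v ε t) (s' : S' X h δ t) (hs : toG X v ε t s = toG' X h δ t s') :
    ∃ z, s = σ X v ε h δ t z ∧ s' = σ' X v ε h δ t z := by
  cases v <;> cases ε <;> cases h <;> cases δ <;> cases t <;> first
    | exact False.elim h1
    | exact False.elim h2
    | exact inter_s hs
    | skip
  · exact X.inter11 hs
  · exact X.inter1 hs
  · exact X.inter2 hs

theorem cb {v : Wl} {ε : Bool} {h : Wl} {δ : Bool} {t : Br} (h1 : inc v ε t)
    (h2 : inc' h δ t) (z : Zm × Zm) :
    ρ X v h (jn (st v ε h) ε δ) z * bb X v ε h δ =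
      bb X v ε h δ * toN X v ε t (σ X v ε h δ t z) := by
  cases v <;> cases ε <;> cases h <;> cases δ <;> cases t <;> first
    | exact False.elim h1
    | exact False.elim h2
    | skip
  · -- t11
    exact (mul_one _).trans ((X.commM (z.2, z.1)).symm.trans (one_mul _).symm)
  · -- t12
    exact (mul_one _).trans (one_mul _).symm
  · -- t3
    rw [jn_false (p := st .one false .two) (fun h => h)]
    exact (mul_one _).trans (one_mul _).symm
  · -- t4
    rw [jn_false (p := st .one false .two) (fun h => h)]
    exact (mul_one _).trans (one_mul _).symm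
  · -- t1
    rw [jn_false (p := st .one true .two) (fun h => h)]
    exact (mul_one _).trans (one_mul _).symm
  · -- t2
    rw [jn_false (p := st .one true .two) (fun h => h)]
    exact (mul_one _).trans (one_mul _).symm
  · -- t10
    exact (mul_one _).trans ((X.Φfix z).symm.trans (one_mul _).symm)
  · -- t7
    rw [jn_true (p := st .two false .two) trivial]
    exact (mul_one _).trans (one_mul _).symm
  · -- t8
    rw [jn_true (p := st .two false .two) trivial]
    change X.Φ (iT (dT (z.2, z.1))) * (X.Φ tT)⁻¹ = (X.Φ tT)⁻¹ * X.Φ (iT (cT (z.2, z.1)))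
    rw [← relT, ← map_inv, ← map_mul, ← map_mul]
    congr 1
    group
  · -- t9
    exact (mul_one _).trans (one_mul _).symm
  · -- t5
    rw [jn_true (p := st .two true .two) trivial]
    exact (mul_one _).trans (one_mul _).symm
  · -- t6
    rw [jn_true (p := st .two true .two) trivial]
    change iT (dT (z.2, z.1)) * tT⁻¹ = tT⁻¹ * iT (cT (z.2, z.1))
    rw [← relT]
    group

theorem cb' {v : Wl} {ε : Bool} {h : Wl} {δ : Bool} {t : Br} (h1 : inc v ε t)
    (h2 : inc' h δ t) (z : Zm × Zm) :
    ρ' X v h (jn (st v ε h) ε δ) z * bb' X v ε h δ =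
      bb' X v ε h δ * toN' X h δ t (σ' X v ε h δ t z) := by
  cases v <;> cases ε <;> cases h <;> cases δ <;> cases t <;> first
    | exact False.elim h1
    | exact False.elim h2
    | skip
  · -- t11
    exact (mul_one _).trans (one_mul _).symm
  · -- t12
    exact (mul_one _).trans (one_mul _).symm
  · -- t3
    rw [jn_false (p := st .one false .two) (fun h => h)]
    exact (mul_one _).trans ((X.commN z).trans (one_mul _).symm)
  · -- t4
    rw [jn_false (p := st .one false .two) (fun h => h)]
    exact (mul_one _).trans ((X.commN' z).trans (one_mul _).symm)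
  · -- t1
    rw [jn_false (p := st .one true .two) (fun h => h)]
    exact (mul_one _).trans (one_mul _).symm
  · -- t2
    rw [jn_false (p := st .one true .two) (fun h => h)]
    exact (mul_one _).trans (one_mul _).symm
  · -- t10
    change iT (dT z) * tT⁻¹ = tT⁻¹ * iT (cT z)
    rw [← relT]
    group
  · -- t7
    rw [jn_true (p := st .two false .two) trivial]
    exact (mul_one _).trans (one_mul _).symm
  · -- t8
    rw [jn_true (p := st .two false .two) trivial]
    change X.fN (GSP.st dy z) * X.w⁻¹ = X.w⁻¹ * X.fN' (GSP.st dy z)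
    have h := X.Ψconj z
    have h3 : X.fN' (GSP.st dy z) = X.w * X.fN (GSP.st dy z) * X.w⁻¹ := by
      rw [← h]; group
    rw [h3]; group
  · -- t9
    exact (mul_one _).trans (one_mul _).symm
  · -- t5
    rw [jn_true (p := st .two true .two) trivial]
    exact (mul_one _).trans (one_mul _).symm
  · -- t6
    rw [jn_true (p := st .two true .two) trivial]
    exact (mul_one _).trans ((X.Ψfix z).symm.trans (one_mul _).symm)

theorem faith (v : Wl) (ε : Bool) : (Pool.TPG.Graph.mk (K := N X v)
    (fun h δ t => st v ε h ∧ inc v ε t ∧ inc' h δ t)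
    (fun t => (toN X v ε t).range) (fun h δ t => ((toN X v ε t).comp (σ X v ε h δ t)).range)
    (fun h δ => bb X v ε h δ)).Faithful := by
  cases v <;> cases ε
  · -- one false: amalgam over H1
    refine Pool.TPG.Graph.faithful_am X.amM (MonoidHom.id (NN (pw X.μ))) injective_id _ Wl.one
      (fun i => if i then Br.b2 else Br.b1) id (fun _ => rfl) (by decide) ?_ ?_ ?_ ?_
    · rintro e δ t ⟨h1, h2, h3⟩
      cases e <;> cases δ <;> cases t <;> first
        | exact False.elim h1
        | exact False.elim h2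
        | exact False.elim h3
        | exact ⟨rfl, rfl⟩
    · intro δ
      rfl
    · rintro (_ | _) w ⟨u, hu⟩
      · exact ⟨u, hu.symm⟩
      · exact ⟨u, hu.symm⟩
    · rintro (_ | _) h
      · exact ⟨(h.2, h.1), rfl⟩
      · exact ⟨(h.2, h.1), rfl⟩
  · -- one true: empty
    refine Pool.TPG.Graph.faithful_of_empty _ ?_
    rintro e δ t ⟨h1, h2, h3⟩
    cases e <;> cases δ <;> cases t <;> first
      | exact False.elim h1
      | exact False.elim h2
      | exact False.elim h3
  · -- two false
    refine Pool.TPG.Graph.faithful_hn hnT X.Φ.toMonoidHom X.Φ.injective _ Wl.two Br.b2 (fun δ => !δ)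
      (fun _ => rfl) ?_ ?_ ?_ ?_
    · rintro e δ t ⟨h1, h2, h3⟩
      cases e <;> cases δ <;> cases t <;> first
        | exact False.elim h1
        | exact False.elim h2
        | exact False.elim h3
        | exact ⟨rfl, rfl⟩
    · rintro (_ | _)
      · change ((X.Φ tT)⁻¹)⁻¹ * 1 = X.Φ tT
        rw [inv_inv, mul_one]
      · change (1 : F2 × Zm)⁻¹ * (X.Φ tT)⁻¹ = X.Φ tT⁻¹
        rw [inv_one, one_mul, map_inv]
    · rintro w ⟨u, hu⟩
      exact ⟨u, hu.symm⟩
    · rintro (_ | _) h
      · exact ⟨(h.2, h.1), rfl⟩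
      · exact ⟨(h.2, h.1), rfl⟩
  · -- two true
    refine Pool.TPG.Graph.faithful_hn hnT (MonoidHom.id (F2 × Zm)) injective_id _ Wl.two Br.b2 (fun δ => !δ)
      (fun _ => rfl) ?_ ?_ ?_ ?_
    · rintro e δ t ⟨h1, h2, h3⟩
      cases e <;> cases δ <;> cases t <;> first
        | exact False.elim h1
        | exact False.elim h2
        | exact False.elim h3
        | exact ⟨rfl, rfl⟩
    · rintro (_ | _)
      · change (tT⁻¹)⁻¹ * 1 = tT
        rw [inv_inv, mul_one]
      · change (1 : F2 × Zm)⁻¹ * tT⁻¹ = tT⁻¹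
        rw [inv_one, one_mul]
    · rintro w ⟨u, hu⟩
      exact ⟨u, hu.symm⟩
    · rintro (_ | _) h
      · exact ⟨(h.2, h.1), rfl⟩
      · exact ⟨(h.2, h.1), rfl⟩

theorem faith' (h : Wl) (δ : Bool) : (Pool.TPG.Graph.mk (K := N' X h)
    (fun v ε t => st' h δ v ∧ inc v ε t ∧ inc' h δ t)
    (fun t => (toN' X h δ t).range) (fun v ε t => ((toN' X h δ t).comp (σ' X v ε h δ t)).range)
    (fun v ε => bb' X v ε h δ)).Faithful := by
  cases h <;> cases δ
  · -- one false: empty
    refine Pool.TPG.Graph.faithful_of_empty _ ?_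
    rintro e δ t ⟨h1, h2, h3⟩
    cases e <;> cases δ <;> cases t <;> first
      | exact False.elim h1
      | exact False.elim h2
      | exact False.elim h3
  · -- one true
    refine Pool.TPG.Graph.faithful_hn hnT (MonoidHom.id (F2 × Zm)) injective_id _ Wl.two Br.b2 id
      (fun _ => rfl) ?_ ?_ ?_ ?_
    · rintro e δ t ⟨h1, h2, h3⟩
      cases e <;> cases δ <;> cases t <;> first
        | exact False.elim h1
        | exact False.elim h2
        | exact False.elim h3
        | exact ⟨rfl, rfl⟩
    · rintro (_ | _)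
      · change (1 : F2 × Zm)⁻¹ * tT⁻¹ = tT⁻¹
        rw [inv_one, one_mul]
      · change (tT⁻¹)⁻¹ * 1 = tT
        rw [inv_inv, mul_one]
    · rintro w ⟨u, hu⟩
      exact ⟨u, hu.symm⟩
    · rintro (_ | _) h
      · exact ⟨h, rfl⟩
      · exact ⟨h, rfl⟩
  · -- two false
    refine Pool.TPG.Graph.faithful_am X.amA (MonoidHom.id (NN (pw X.ν))) injective_id _ Wl.one
      (fun i => if i then Br.b2 else Br.b0) (fun δ => !δ) (fun _ => rfl) (by decide) ?_ ?_ ?_ ?_
    · rintro e δ t ⟨h1, h2, h3⟩
      cases e <;> cases δ <;> cases t <;> first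
        | exact False.elim h1
        | exact False.elim h2
        | exact False.elim h3
        | exact ⟨rfl, rfl⟩
    · intro δ
      rfl
    · rintro (_ | _) w ⟨u, hu⟩
      · exact ⟨u, hu.symm⟩
      · exact ⟨u, hu.symm⟩
    · rintro (_ | _) h
      · exact ⟨h, rfl⟩
      · exact ⟨h, rfl⟩
  · -- two true
    refine Pool.TPG.Graph.faithful_am X.amA' X.Ψ.toMonoidHom X.Ψ.injective _ Wl.one
      (fun i => if i then Br.b2 else Br.b0) (fun δ => !δ) (fun _ => rfl) (by decide) ?_ ?_ ?_ ?_
    · rintro e δ t ⟨h1, h2, h3⟩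
      cases e <;> cases δ <;> cases t <;> first
        | exact False.elim h1
        | exact False.elim h2
        | exact False.elim h3
        | exact ⟨rfl, rfl⟩
    · intro δ
      rfl
    · rintro (_ | _) w ⟨u, hu⟩
      · exact ⟨u, hu.symm⟩
      · exact ⟨u, hu.symm⟩
    · rintro (_ | _) h
      · exact ⟨h, rfl⟩
      · exact ⟨h, rfl⟩

/-- the pinwheel as a T-plan -/
noncomputable def plan : Plan Br Wl Wl where
  inc := inc
  inc' := inc'
  cor := fun v ε h δ t => inc v ε t ∧ inc' h δ t
  st := st
  st' := st'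
  cor_inc := fun k => k.1
  cor_inc' := fun k => k.2
  uniq := fun k k' => uniq k.1 k.2 k'.1 k'.2
  corner := fun k => corner k.1 k.2
  G := G X
  N := N X
  N' := N' X
  S := S X
  S' := S' X
  R := fun _ _ => Zm × Zm
  toG := toG X
  toN := toN X
  toG' := toG' X
  toN' := toN' X
  σ := σ X
  σ' := σ' X
  ρ := ρ X
  ρ' := ρ' X
  a := fun _ _ _ _ _ => 1
  b := bb X
  b' := bb' X
  inj := inj X
  inj' := inj' X
  ca := fun k z => by rw [mul_one, one_mul]; exact ca X k.1 k.2 z
  cb := fun k z => cb X k.1 k.2 z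
  cb' := fun k z => cb' X k.1 k.2 z
  meet := fun k s s' hs => meet X k.1 k.2 s s' (by rwa [mul_one, one_mul] at hs)
  faith := faith X
  faith' := faith' X

end Pool.TPW
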