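import Pool.Agent.Lib.TPW.Back
import Pool.Agent.Lib.TPG.Pres

/-!
# The pinwheel group is the fundamental group of its T-plan
-/

namespace Pool.TPW

open Function Monoid Pool.GSP Pool.TPG

section

variable {A B G0 G1 : Type} [Group A] [Group B] [Group G0] [Group G1] {X : Wheel A B G0 G1}
  {H : Type*} [Group H] {h0 : G0 →* H} {h1 : G1 →* H} {t : H} (hs : X.Sat h0 h1 t)

/-- images of the bricks -/
def vB : ∀ b, G X b →* H
  | .b0 => h0
  | .b1 => h1
  | .b2 => J2 hs

/-- images of the vertical walls -/
def vV : ∀ v, N X v →* H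
  | .one => h0.comp X.P1
  | .two => eM hs

/-- images of the horizontal walls -/
def vH : ∀ v, N' X v →* H
  | .one => h1.comp X.Q5
  | .two => eN hs

/-- images of the letters of the sides of the vertical walls -/
def lS (_ : X.Sat h0 h1 t) : Wl → Bool → H
  | .two, false => h1 (X.p gd)
  | .two, true => 1
  | .one, _ => 1

/-- images of the letters of the sides of the horizontal walls -/
def lS' (_ : X.Sat h0 h1 t) : Wl → Bool → H
  | .two, true => t
  | .two, false => 1
  | .one, _ => 1

/-- images of the letters of the junctions -/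
def lJ (_ : X.Sat h0 h1 t) : Wl → Wl → Bool × Bool → H
  | .one, .two, (true, false) => t⁻¹
  | .two, .two, (false, true) => h1 (X.p gd)
  | _, _, _ => 1

/-- the images of the generators of the group of the plan -/
noncomputable def val : (plan X).Gen → H
  | .brick b x => vB hs b x
  | .wall v x => vV hs v x
  | .wall' v x => vH hs v x
  | .side v ε _ _ => lS hs v ε
  | .side' v δ _ _ => lS' hs v δ
  | .jun v w k => lJ hs v w k

theorem v_side {v : Wl} {ε : Bool} {b : Br} (i : inc v ε b) (s : S X v ε b) :
    vB hs b (toG X v ε b s) * lS hs v ε = lS hs v ε * vV hs v (toN X v ε b s) := by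
  cases v <;> cases ε <;> cases b <;> first
    | exact False.elim i
    | skip
  · exact (mul_one _).trans ((l_p2 hs s).trans (one_mul _).symm)
  · exact (mul_one _).trans ((l_p3 hs s).trans (one_mul _).symm)
  · exact (mul_one _).trans (one_mul _).symm
  · exact l_p5 hs s
  · exact (mul_one _).trans ((l_p4 hs s).trans (one_mul _).symm)

theorem v_side' {v : Wl} {ε : Bool} {b : Br} (i : inc' v ε b) (s : S' X v ε b) :
    vB hs b (toG' X v ε b s) * lS' hs v ε = lS' hs v ε * vH hs v (toN' X v ε b s) := by
  cases v <;> cases ε <;> cases b <;> first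
    | exact False.elim i
    | skip
  · exact (mul_one _).trans (one_mul _).symm
  · exact (mul_one _).trans ((l_q6 hs s).trans (one_mul _).symm)
  · exact (mul_one _).trans ((l_q1 hs s).trans (one_mul _).symm)
  · exact (mul_one _).trans ((l_q3 hs s).trans (one_mul _).symm)
  · exact l_q2 hs s
  · exact l_q4 hs s

theorem v_corner {v : Wl} {ε : Bool} {w : Wl} {δ : Bool} {b : Br} (h1' : inc v ε b)
    (h2 : inc' w δ b) :
    vH hs w (bb' X v ε w δ) * (lS' hs w δ)⁻¹ * (vB hs b 1)⁻¹ * lS hs v ε =
      lJ hs v w (jn (st v ε w) ε δ) * vV hs v (bb X v ε w δ) := by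
  have e1 : ∀ v, vV hs v (1 : N X v) = 1 := fun v => map_one _
  have e2 : ∀ v, vH hs v (1 : N' X v) = 1 := fun v => map_one _
  rw [map_one, inv_one, mul_one]
  cases v <;> cases ε <;> cases w <;> cases δ <;> cases b <;> first
    | exact False.elim h1'
    | exact False.elim h2
    | skip
  · -- t11
    rw [jn_true (p := st .one false .one) trivial]
    change vH hs .one 1 * (1 : H)⁻¹ * 1 = 1 * vV hs .one 1
    rw [e1, e2]; group
  · -- t12
    rw [jn_true (p := st .one false .one) trivial]
    change vH hs .one 1 * (1 : H)⁻¹ * 1 = 1 * vV hs .one 1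
    rw [e1, e2]; group
  · -- t3
    rw [jn_false (p := st .one false .two) (fun h => h)]
    change vH hs .two 1 * (1 : H)⁻¹ * 1 = 1 * vV hs .one 1
    rw [e1, e2]; group
  · -- t4
    rw [jn_false (p := st .one false .two) (fun h => h)]
    change vH hs .two 1 * t⁻¹ * 1 = t⁻¹ * vV hs .one 1
    rw [e1, e2]; group
  · -- t1
    rw [jn_false (p := st .one true .two) (fun h => h)]
    change vH hs .two 1 * (1 : H)⁻¹ * 1 = 1 * vV hs .one 1
    rw [e1, e2]; group
  · -- t2
    rw [jn_false (p := st .one true .two) (fun h => h)]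
    change vH hs .two 1 * t⁻¹ * 1 = t⁻¹ * vV hs .one 1
    rw [e1, e2]; group
  · -- t10
    rw [jn_false (p := st .two false .one) (fun h => h)]
    change h1 (X.Q5 (tT⁻¹)) * (1 : H)⁻¹ * h1 (X.p gd) = 1 * vV hs .two 1
    have e : X.Q5 tT = X.p gd := by rw [Wheel.Q5_apply]; simp [tT]
    rw [e1, map_inv, map_inv, e]; group
  · -- t7
    rw [jn_true (p := st .two false .two) trivial]
    change vH hs .two 1 * (1 : H)⁻¹ * h1 (X.p gd) = h1 (X.p gd) * vV hs .two 1
    rw [e1, e2]; group
  · -- t8
    rw [jn_true (p := st .two false .two) trivial]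
    change eN hs (X.w⁻¹) * t⁻¹ * h1 (X.p gd) = h1 (X.p gd) * eM hs (X.Φ tT)⁻¹
    have e := hs.rt
    rw [map_inv, map_inv, eq_mul_inv_iff_mul_eq, eM_apply, eN_apply]
    rw [mul_assoc, mul_assoc]
    change _ * (_ * (_ * X.evM h0 h1 t (X.Φ (gd, 1)))) = _
    rw [← e]; group
  · -- t9
    rw [jn_false (p := st .two true .one) (fun h => h)]
    change vH hs .one 1 * (1 : H)⁻¹ * 1 = 1 * vV hs .two 1
    rw [e1, e2]; group
  · -- t5
    rw [jn_true (p := st .two true .two) trivial]
    change vH hs .two 1 * (1 : H)⁻¹ * 1 = 1 * vV hs .two 1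
    rw [e1, e2]; group
  · -- t6
    rw [jn_true (p := st .two true .two) trivial]
    change vH hs .two 1 * t⁻¹ * 1 = 1 * eM hs (tT⁻¹)
    have e : eM hs tT = t := eM_gd hs
    rw [e2, map_inv, e]; group

theorem rel_val {a b : FreeGroup (plan X).Gen} (h : (plan X).Rel a b) :
    FreeGroup.lift (val hs) a = FreeGroup.lift (val hs) b := by
  induction h with
  | brick b x y =>
    simp only [map_mul, FreeGroup.lift_apply_of, val]
    exact (map_mul (vB hs b) x y).symm
  | wall v x y =>
    simp only [map_mul, FreeGroup.lift_apply_of, val]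
    exact (map_mul (vV hs v) x y).symm
  | wall' v x y =>
    simp only [map_mul, FreeGroup.lift_apply_of, val]
    exact (map_mul (vH hs v) x y).symm
  | side i s =>
    simp only [map_mul, FreeGroup.lift_apply_of, val]
    exact v_side hs i s
  | side' i s =>
    simp only [map_mul, FreeGroup.lift_apply_of, val]
    exact v_side' hs i s
  | corner k =>
    simp only [map_mul, map_inv, FreeGroup.lift_apply_of, val]
    exact v_corner hs k.1 k.2

end

variable {A B G0 G1 : Type} [Group A] [Group B] [Group G0] [Group G1] (X : Wheel A B G0 G1)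

/-- the letters of a maximal tree -/
inductive InTree : (plan X).Gen → Prop
  | p1 (i : (plan X).inc .one true .b0) : InTree (.side .one true .b0 i)
  | p2 (i : (plan X).inc .one false .b1) : InTree (.side .one false .b1 i)
  | p3 (i : (plan X).inc .one false .b2) : InTree (.side .one false .b2 i)
  | p4 (i : (plan X).inc .two true .b2) : InTree (.side .two true .b2 i)
  | q1 (i : (plan X).inc' .two false .b0) : InTree (.side' .two false .b0 i)
  | q5 (i : (plan X).inc' .one false .b1) : InTree (.side' .one false .b1 i)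

/-- the letter of a side, vertical walls -/
def wS (v : Wl) (ε : Bool) (b : Br) (i : inc v ε b) : FreeGroup (plan X).Gen :=
  FreeGroup.of (.side v ε b i)

/-- the letter of a side, horizontal walls -/
def wS' (v : Wl) (ε : Bool) (b : Br) (i : inc' v ε b) : FreeGroup (plan X).Gen :=
  FreeGroup.of (.side' v ε b i)

/-- the paths in the tree -/
def pth : Vert Br Wl Wl → FreeGroup (plan X).Gen
  | .brick .b0 => 1
  | .wall .one => 1 * wS X .one true .b0 trivial
  | .brick .b1 => 1 * wS X .one true .b0 trivial * (wS X .one false .b1 trivial)⁻¹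
  | .brick .b2 => 1 * wS X .one true .b0 trivial * (wS X .one false .b2 trivial)⁻¹
  | .wall' .two => 1 * wS' X .two false .b0 trivial
  | .wall' .one => 1 * wS X .one true .b0 trivial * (wS X .one false .b1 trivial)⁻¹ *
      wS' X .one false .b1 trivial
  | .wall .two => 1 * wS X .one true .b0 trivial * (wS X .one false .b2 trivial)⁻¹ *
      wS X .two true .b2 trivial

/-- a maximal tree of the plan -/
def tree : (plan X).Tree (.brick Br.b0) where
  Z := {z | InTree X z}
  p := pth X
  root := rfl
  path x := by
    have e0 : (plan X).TPath {z | InTree X z} (.brick Br.b0) (.brick Br.b0) 1 := .nil _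
    have e1 := Plan.TPath.fwd (.p1 trivial) (.side (v := Wl.one) (ε := true) (t := Br.b0) trivial) e0
    have e2 := Plan.TPath.bwd (.p2 trivial) (.side (v := Wl.one) (ε := false) (t := Br.b1) trivial) e1
    have e3 := Plan.TPath.bwd (.p3 trivial) (.side (v := Wl.one) (ε := false) (t := Br.b2) trivial) e1
    cases x with
    | brick b =>
      cases b
      · exact e0
      · exact e2
      · exact e3
    | wall v =>
      cases v
      · exact e1
      · exact Plan.TPath.fwd (.p4 trivial) (.side (v := Wl.two) (ε := true) (t := Br.b2) trivial) e3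
    | wall' v =>
      cases v
      · exact Plan.TPath.fwd (.q5 trivial) (.side' (h := Wl.one) (δ := false) (t := Br.b1) trivial) e2
      · exact Plan.TPath.fwd (.q1 trivial) (.side' (h := Wl.two) (δ := false) (t := Br.b0) trivial) e0
  edge := by
    rintro z (i | i | i | i | i | i)
    · exact ⟨_, _, .side i⟩
    · exact ⟨_, _, .side i⟩
    · exact ⟨_, _, .side i⟩
    · exact ⟨_, _, .side i⟩
    · exact ⟨_, _, .side' i⟩
    · exact ⟨_, _, .side' i⟩
  step := by
    rintro z (i | i | i | i | i | i) x y e
    · rw [← e.src_eq, ← e.tgt_eq]; rfl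
    · rw [← e.src_eq, ← e.tgt_eq]; exact (inv_mul_cancel_right _ _).symm
    · rw [← e.src_eq, ← e.tgt_eq]; exact (inv_mul_cancel_right _ _).symm
    · rw [← e.src_eq, ← e.tgt_eq]; rfl
    · rw [← e.src_eq, ← e.tgt_eq]; rfl
    · rw [← e.src_eq, ← e.tgt_eq]; rfl

/-- the image of a realisation -/
def Real.map {X : Wheel A B G0 G1} {U U' : Type*} [Group U] [Group U'] (R : Real X U)
    (φ : U →* U') : Real X U' where
  j0 := φ.comp R.j0
  j1 := φ.comp R.j1
  j2 := φ.comp R.j2
  k1 := φ.comp R.k1
  k2 := φ.comp R.k2
  l1 := φ.comp R.l1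
  l2 := φ.comp R.l2
  p1 := φ R.p1
  p2 := φ R.p2
  p3 := φ R.p3
  p4 := φ R.p4
  p5 := φ R.p5
  q1 := φ R.q1
  q2 := φ R.q2
  q3 := φ R.q3
  q4 := φ R.q4
  q5 := φ R.q5
  q6 := φ R.q6
  r1 := φ R.r1
  r2 := φ R.r2
  r3 := φ R.r3
  r4 := φ R.r4
  r5 := φ R.r5
  r6 := φ R.r6
  e_p1 u := by have h := congrArg φ (R.e_p1 u); rwa [map_mul, map_mul] at h
  e_p2 u := by have h := congrArg φ (R.e_p2 u); rwa [map_mul, map_mul] at h
  e_p3 u := by have h := congrArg φ (R.e_p3 u); rwa [map_mul, map_mul] at h
  e_p4 u := by have h := congrArg φ (R.e_p4 u); rwa [map_mul, map_mul] at h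
  e_p5 u := by have h := congrArg φ (R.e_p5 u); rwa [map_mul, map_mul] at h
  e_q1 u := by have h := congrArg φ (R.e_q1 u); rwa [map_mul, map_mul] at h
  e_q2 u := by have h := congrArg φ (R.e_q2 u); rwa [map_mul, map_mul] at h
  e_q3 u := by have h := congrArg φ (R.e_q3 u); rwa [map_mul, map_mul] at h
  e_q4 u := by have h := congrArg φ (R.e_q4 u); rwa [map_mul, map_mul] at h
  e_q5 u := by have h := congrArg φ (R.e_q5 u); rwa [map_mul, map_mul] at h
  e_q6 u := by have h := congrArg φ (R.e_q6 u); rwa [map_mul, map_mul] at h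
  tri1 := by have h := congrArg φ R.tri1; rwa [map_mul] at h
  tri2 := by have h := congrArg φ R.tri2; rwa [map_mul] at h
  tri3 := by have h := congrArg φ R.tri3; rwa [map_mul] at h
  tri4 := by have h := congrArg φ R.tri4; rwa [map_mul] at h
  tri5 := by have h := congrArg φ R.tri5; rwa [map_mul] at h
  tri7 := by have h := congrArg φ R.tri7; rwa [map_mul] at h
  tri9 := by have h := congrArg φ R.tri9; rwa [map_mul] at h
  tri11 := by have h := congrArg φ R.tri11; rwa [map_mul] at h
  tri12 := by have h := congrArg φ R.tri12; rwa [map_mul] at h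
  tri6 := by have h := congrArg φ R.tri6; rwa [map_mul, map_mul] at h
  tri8 := by have h := congrArg φ R.tri8; rwa [map_mul, map_mul, map_mul] at h
  tri10 := by have h := congrArg φ R.tri10; rwa [map_mul, map_mul] at h

theorem kill_val {H : Type*} [Group H] {h0 : G0 →* H} {h1 : G1 →* H} {t : H}
    (hs : X.Sat h0 h1 t) {z : (plan X).Gen} (h : z ∈ (tree X).K) : val hs z = 1 := by
  rcases h with h | h
  · rcases h with i | i | i | i | i | i <;> rfl
  · obtain ⟨v, w, k, rfl, e⟩ := h
    change lJ hs v w k = 1
    have e1 : k = (true, false) → v = Wl.one → w = Wl.two → False := by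
      rintro rfl rfl rfl
      have c : (plan X).IsEdge _ _ _ := .jun (v := Wl.one) (ε := true) (h := Wl.two) (δ := true)
        (t := Br.b0) ⟨trivial, trivial⟩
      have c1 : jn ((plan X).st Wl.one true Wl.two) true true = (true, false) :=
        jn_false (fun h => h) _ _
      rw [c1] at c
      exact e _ _ c
    have e2 : k = (false, true) → v = Wl.two → w = Wl.two → False := by
      rintro rfl rfl rfl
      have c : (plan X).IsEdge _ _ _ := .jun (v := Wl.two) (ε := false) (h := Wl.two) (δ := true)
        (t := Br.b2) ⟨trivial, trivial⟩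
      have c1 : jn ((plan X).st Wl.two false Wl.two) false true = (false, true) :=
        jn_true trivial _ _
      rw [c1] at c
      exact e _ _ c
    rcases k with ⟨_ | _, _ | _⟩ <;> cases v <;> cases w <;> first
      | rfl
      | exact (e1 rfl rfl rfl).elim
      | exact (e2 rfl rfl rfl).elim

/-- homomorphisms out of the presented group -/
noncomputable def fromKill {X : Wheel A B G0 G1} {H : Type*} [Group H] {h0 : G0 →* H}
    {h1 : G1 →* H} {t : H} (hs : X.Sat h0 h1 t) : (plan X).Kill (tree X).K →* H :=
  PresentedGroup.toGroup (f := val hs) (by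
    rintro r (⟨a, b, h, rfl⟩ | ⟨z, h, rfl⟩)
    · rw [map_mul, map_inv, rel_val hs h, mul_inv_cancel]
    · rw [FreeGroup.lift_apply_of]
      exact kill_val X hs h)

theorem fromKill_of {X : Wheel A B G0 G1} {H : Type*} [Group H] {h0 : G0 →* H}
    {h1 : G1 →* H} {t : H} (hs : X.Sat h0 h1 t) (z : (plan X).Gen) :
    fromKill hs (PresentedGroup.of z) = val hs z := PresentedGroup.toGroup.of _

/-- the relations in the presented group -/
noncomputable def realK : Real X ((plan X).Kill (tree X).K) :=
  (real X).map (Plan.quo (tree X).K)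

theorem quo_lv {v : Wl} {ε : Bool} {b : Br} (i : (plan X).inc v ε b)
    (h : InTree X (.side v ε b i)) : Plan.quo (tree X).K ((plan X).lv i) = 1 :=
  (Plan.quo_of _ _).trans (Plan.kill_of (Or.inl h))

theorem quo_lh {v : Wl} {ε : Bool} {b : Br} (i : (plan X).inc' v ε b)
    (h : InTree X (.side' v ε b i)) : Plan.quo (tree X).K ((plan X).lh i) = 1 :=
  (Plan.quo_of _ _).trans (Plan.kill_of (Or.inl h))

theorem kp1 : (realK X).p1 = 1 := quo_lv X _ (.p1 trivial)
theorem kp2 : (realK X).p2 = 1 := quo_lv X _ (.p2 trivial)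
theorem kp3 : (realK X).p3 = 1 := quo_lv X _ (.p3 trivial)
theorem kp4 : (realK X).p4 = 1 := quo_lv X _ (.p4 trivial)
theorem kq1 : (realK X).q1 = 1 := quo_lh X _ (.q1 trivial)
theorem kq5 : (realK X).q5 = 1 := quo_lh X _ (.q5 trivial)

theorem kr1 : (realK X).r1 = 1 := by
  have h := (realK X).tri1
  rw [kp1, kq1, one_mul] at h
  exact h.symm

theorem kq3 : (realK X).q3 = 1 := by
  have h := (realK X).tri3
  rw [kp3, kr1, mul_one] at h
  exact h.symm

theorem kr3 : (realK X).r3 = 1 := by
  have h := (realK X).tri5
  rw [kp4, kq3, one_mul] at h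
  exact h.symm

theorem kr6 : (realK X).r6 = 1 := by
  have h := (realK X).tri11
  rw [kp2, kq5, one_mul] at h
  exact h.symm

theorem kq6 : (realK X).q6 = 1 := by
  have h := (realK X).tri12
  rw [kp3, kr6, mul_one] at h
  exact h.symm

theorem kr5 : (realK X).r5 = 1 := by
  have h := (realK X).tri9
  rw [kp4, kq6, one_mul] at h
  exact h.symm

theorem kaa : (realK X).aa = 1 := by
  rw [Real.aa, kp1, kp2, inv_one, mul_one]

theorem kcc : (realK X).cc = 1 := by
  rw [Real.cc, kp1, kp3, inv_one, mul_one]

theorem ktt : (realK X).tt = (realK X).q2 := by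
  rw [Real.tt, kq1, inv_one, mul_one]

theorem kq4 : (realK X).q4 = (realK X).tt := by
  have h := (realK X).tri4
  have h2 := (realK X).tri2
  rw [kp3] at h
  rw [kp1] at h2
  rw [ktt, eq_inv_of_mul_eq_one_left h.symm, eq_inv_of_mul_eq_one_left h2.symm]

theorem kr2 : (realK X).r2 = (realK X).tt⁻¹ := by
  have h2 := (realK X).tri2
  rw [kp1] at h2
  rw [ktt, eq_inv_of_mul_eq_one_right h2.symm]

theorem kp5 : (realK X).p5 = (realK X).l1 tT := by
  have h := (realK X).tri10
  rwa [kq6, one_mul, kr5, mul_one] at h

theorem kr4 : (realK X).r4 = (realK X).l1 tT := by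
  have h := (realK X).tri7
  rw [kq3, one_mul, kp5] at h
  exact h.symm

/-- homomorphisms out of a pinwheel group are determined by the bricks and the letter -/
theorem pin_ext {X : Wheel A B G0 G1} {H : Type*} [Group H] {F G : X.Pin →* H}
    (h0 : ∀ z, F (X.of0 z) = G (X.of0 z)) (h1 : ∀ z, F (X.of1 z) = G (X.of1 z))
    (ht : F X.t = G X.t) : F = G := by
  have h : F.comp X.qt = G.comp X.qt := by
    refine sg_ext (fun c => ?_) ht
    have e : (F.comp X.qt).comp (Coprod.inl : Coprod G0 G1 →* X.Fr) =
        (G.comp X.qt).comp Coprod.inl := Coprod.hom_ext (MonoidHom.ext h0) (MonoidHom.ext h1)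
    exact DFunLike.congr_fun e c
  refine MonoidHom.ext fun z => ?_
  obtain ⟨c, rfl⟩ := QuotientGroup.mk'_surjective (Subgroup.normalClosure X.rels) z
  exact DFunLike.congr_fun h c

/-- the homomorphism to the presented group -/
noncomputable def toKill : X.Pin →* (plan X).Kill (tree X).K := Wheel.lift (realK X).satU

theorem toKill_of0 (z : G0) : toKill X (X.of0 z) = PresentedGroup.of (.brick Br.b0 z) :=
  (Wheel.lift_of0 _ z).trans (Plan.quo_of _ _)

theorem toKill_of1 (z : G1) : toKill X (X.of1 z) = PresentedGroup.of (.brick Br.b1 z) := by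
  refine (Wheel.lift_of1 _ z).trans ?_
  rw [Real.h1_apply, kaa, one_mul, inv_one, mul_one]
  exact Plan.quo_of _ _

theorem toKill_t : toKill X X.t = (realK X).tt := Wheel.lift_t _

theorem kj1 (u : F2 × Zm) : (realK X).j1 (X.Q5 u) = (realK X).l1 u := by
  have h := (realK X).e_q5 u
  rwa [kq5, one_mul, mul_one] at h

theorem kj2_left (u : F2) : (realK X).j2 (u, 1) = (realK X).j1 (X.p (κT u)) := by
  have h := (realK X).e_q6 (u, 1)
  rw [kq6, one_mul, mul_one, ← kj1] at h
  have e1 : s1 gd (u, 1) = (u, 1) := by
    change ((u, pw gd 1) : F2 × F2) = (u, 1)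
    rw [pw_one']
  have e2 : X.Q5 (iT (u, 1)) = X.p (κT u) := by
    rw [Wheel.Q5_apply, iT_apply]; simp
  rwa [e1, e2] at h

theorem kj2_right (u : F2) : (realK X).j2 (1, u) = (realK X).j0 (X.g (κS X.δ' u)) := by
  have h := (realK X).eqB u
  rw [kcc, one_mul, inv_one, mul_one] at h
  exact h.symm

theorem from_to : (fromKill X.sat).comp (toKill X) = MonoidHom.id X.Pin := by
  refine pin_ext (fun z => ?_) (fun z => ?_) ?_
  · change fromKill X.sat (toKill X (X.of0 z)) = X.of0 z
    rw [toKill_of0, fromKill_of]
    rfl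
  · change fromKill X.sat (toKill X (X.of1 z)) = X.of1 z
    rw [toKill_of1, fromKill_of]
    rfl
  · change fromKill X.sat (toKill X X.t) = X.t
    rw [toKill_t, ktt]
    exact (congrArg _ (Plan.quo_of _ _)).trans (fromKill_of _ _)

theorem to_brick (b : Br) (x : G X b) :
    toKill X (vB X.sat b x) = PresentedGroup.of (.brick b x) := by
  cases b with
  | b0 => exact toKill_of0 X x
  | b1 => exact toKill_of1 X x
  | b2 =>
    change toKill X (J2 X.sat x) = _
    obtain ⟨u, v⟩ := x
    rw [J2_apply, map_mul, toKill_of1, toKill_of0]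
    have h : (realK X).j2 (u, v) = (realK X).j1 (X.p (κT u)) * (realK X).j0 (X.g (κS X.δ' v)) := by
      rw [← kj2_left, ← kj2_right, ← map_mul]
      simp
    exact (h.symm.trans (Plan.quo_of _ _) : _)

theorem to_M (x : F2 × Zm) : toKill X (X.evM X.of0 X.of1 X.t x) = (realK X).k2 x := by
  rw [Wheel.map_evM, toKill_t]
  have e0 : (toKill X).comp X.of0 = (realK X).h0 := MonoidHom.ext fun z => Wheel.lift_of0 (realK X).satU z
  have e1 : (toKill X).comp X.of1 = (realK X).h1 := MonoidHom.ext fun z => Wheel.lift_of1 (realK X).satU z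
  have h := (realK X).evM_eq x
  rw [kcc, kp4, one_mul, one_mul, inv_one, mul_one, mul_one] at h
  rw [e0, e1, h]

theorem to_N (x : NN (pw X.ν)) : toKill X (X.evN X.of0 X.of1 x) = (realK X).l2 x := by
  rw [Wheel.map_evN]
  have e0 : (toKill X).comp X.of0 = (realK X).h0 := MonoidHom.ext fun z => Wheel.lift_of0 (realK X).satU z
  have e1 : (toKill X).comp X.of1 = (realK X).h1 := MonoidHom.ext fun z => Wheel.lift_of1 (realK X).satU z
  have h := (realK X).evN_eq x
  rw [kq1, one_mul, inv_one, mul_one] at h
  rw [e0, e1, h]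

theorem to_wall (v : Wl) (x : N X v) :
    toKill X (vV X.sat v x) = PresentedGroup.of (.wall v x) := by
  cases v with
  | one =>
    change toKill X (X.of0 (X.P1 x)) = _
    rw [toKill_of0]
    have h := (realK X).e_p1 x
    rw [kp1, one_mul, mul_one] at h
    exact (Plan.quo_of _ _).symm.trans (h.trans (Plan.quo_of _ _))
  | two =>
    exact (to_M X x).trans (Plan.quo_of _ _)

theorem to_wall' (v : Wl) (x : N' X v) :
    toKill X (vH X.sat v x) = PresentedGroup.of (.wall' v x) := by
  cases v with
  | one =>
    change toKill X (X.of1 (X.Q5 x)) = _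
    rw [toKill_of1]
    exact (Plan.quo_of _ _).symm.trans ((kj1 X x).trans (Plan.quo_of _ _))
  | two =>
    exact (to_N X x).trans (Plan.quo_of _ _)

theorem to_gd : toKill X (X.of1 (X.p gd)) = (realK X).l1 tT := by
  have e : X.Q5 tT = X.p gd := by rw [Wheel.Q5_apply]; simp [tT]
  rw [← e]
  exact (to_wall' X .one tT).trans (Plan.quo_of _ _).symm

theorem to_side (v : Wl) (ε : Bool) (b : Br) (i : (plan X).inc v ε b) :
    toKill X (lS X.sat v ε) = PresentedGroup.of (.side v ε b i) := by
  cases v <;> cases ε <;> cases b <;> first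
    | exact False.elim i
    | skip
  · exact (map_one _).trans (Plan.kill_of (Or.inl (.p2 i))).symm
  · exact (map_one _).trans (Plan.kill_of (Or.inl (.p3 i))).symm
  · exact (map_one _).trans (Plan.kill_of (Or.inl (.p1 i))).symm
  · exact (to_gd X).trans ((kp5 X).symm.trans (Plan.quo_of _ _))
  · exact (map_one _).trans (Plan.kill_of (Or.inl (.p4 i))).symm

theorem to_side' (v : Wl) (ε : Bool) (b : Br) (i : (plan X).inc' v ε b) :
    toKill X (lS' X.sat v ε) = PresentedGroup.of (.side' v ε b i) := by
  cases v <;> cases ε <;> cases b <;> first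
    | exact False.elim i
    | skip
  · exact (map_one _).trans (Plan.kill_of (Or.inl (.q5 i))).symm
  · exact (map_one _).trans ((kq6 X).symm.trans (Plan.quo_of _ _))
  · exact (map_one _).trans (Plan.kill_of (Or.inl (.q1 i))).symm
  · exact (map_one _).trans ((kq3 X).symm.trans (Plan.quo_of _ _))
  · exact (toKill_t X).trans ((ktt X).trans (Plan.quo_of _ _))
  · exact (toKill_t X).trans ((kq4 X).symm.trans (Plan.quo_of _ _))

theorem of_unused {v w : Wl} {k : Bool × Bool}
    (h : ∀ x y, ¬ (plan X).IsEdge (.jun v w k) x y) :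
    (PresentedGroup.of (.jun v w k) : (plan X).Kill (tree X).K) = 1 :=
  Plan.kill_of (Or.inr ⟨v, w, k, rfl, h⟩)

/-- the letters of the junctions: only six of them occur in the complex -/
theorem to_jun (v w : Wl) (k : Bool × Bool) :
    toKill X (lJ X.sat v w k) = PresentedGroup.of (.jun v w k) := by
  have e1 : toKill X (lJ X.sat .one .two (false, false)) =
      PresentedGroup.of (.jun .one .two (false, false)) :=
    (map_one _).trans ((kr1 X).symm.trans (Plan.quo_of _ _))
  have e2 : toKill X (lJ X.sat .one .two (true, false)) =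
      PresentedGroup.of (.jun .one .two (true, false)) :=
    (map_inv (toKill X) X.t).trans ((congrArg (fun g => g⁻¹) (toKill_t X)).trans
      ((kr2 X).symm.trans (Plan.quo_of _ _)))
  have e3 : toKill X (lJ X.sat .two .two (true, true)) =
      PresentedGroup.of (.jun .two .two (true, true)) :=
    (map_one _).trans ((kr3 X).symm.trans (Plan.quo_of _ _))
  have e4 : toKill X (lJ X.sat .two .two (false, true)) =
      PresentedGroup.of (.jun .two .two (false, true)) :=
    (to_gd X).trans ((kr4 X).symm.trans (Plan.quo_of _ _))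
  have e5 : toKill X (lJ X.sat .two .one (true, false)) =
      PresentedGroup.of (.jun .two .one (true, false)) :=
    (map_one _).trans ((kr5 X).symm.trans (Plan.quo_of _ _))
  have e6 : toKill X (lJ X.sat .one .one (false, true)) =
      PresentedGroup.of (.jun .one .one (false, true)) :=
    (map_one _).trans ((kr6 X).symm.trans (Plan.quo_of _ _))
  by_cases h : ∀ x y, ¬ (plan X).IsEdge (.jun v w k) x y
  · rw [of_unused X h]
    have h2 := kill_val X X.sat (z := .jun v w k) (Or.inr ⟨v, w, k, rfl, h⟩)
    change lJ X.sat v w k = 1 at h2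
    rw [h2, map_one]
  · obtain ⟨x, y, h⟩ : ∃ x y, (plan X).IsEdge (.jun v w k) x y := by
      by_contra h2
      exact h fun x y h3 => h2 ⟨x, y, h3⟩
    generalize hz : (Plan.Gen.jun v w k : (plan X).Gen) = z at h
    cases h with
    | side i => cases hz
    | side' i => cases hz
    | @jun v' ε w' δ b c =>
      cases hz
      obtain ⟨c1, c2⟩ := c
      change toKill X (lJ X.sat v w (jn (st v ε w) ε δ)) =
        PresentedGroup.of (.jun v w (jn (st v ε w) ε δ))
      cases v <;> cases ε <;> cases w <;> cases δ <;> cases b <;> first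
        | exact False.elim c1
        | exact False.elim c2
        | skip
      · -- t11
        rw [jn_true (p := st .one false .one) trivial]; exact e6
      · -- t12
        rw [jn_true (p := st .one false .one) trivial]; exact e6
      · -- t3
        rw [jn_false (p := st .one false .two) (fun h => h)]; exact e1
      · -- t4
        rw [jn_false (p := st .one false .two) (fun h => h)]; exact e2
      · -- t1
        rw [jn_false (p := st .one true .two) (fun h => h)]; exact e1
      · -- t2
        rw [jn_false (p := st .one true .two) (fun h => h)]; exact e2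
      · -- t10
        rw [jn_false (p := st .two false .one) (fun h => h)]; exact e5
      · -- t7
        rw [jn_true (p := st .two false .two) trivial]; exact e4
      · -- t8
        rw [jn_true (p := st .two false .two) trivial]; exact e4
      · -- t9
        rw [jn_false (p := st .two true .one) (fun h => h)]; exact e5
      · -- t5
        rw [jn_true (p := st .two true .two) trivial]; exact e3
      · -- t6
        rw [jn_true (p := st .two true .two) trivial]; exact e3

theorem to_from : (toKill X).comp (fromKill X.sat) = MonoidHom.id ((plan X).Kill (tree X).K) := by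
  refine PresentedGroup.ext fun z => ?_
  change toKill X (fromKill X.sat (PresentedGroup.of z)) = PresentedGroup.of z
  rw [fromKill_of]
  cases z with
  | brick b x => exact to_brick X b x
  | wall v x => exact to_wall X v x
  | wall' v x => exact to_wall' X v x
  | side v ε b i => exact to_side X v ε b i
  | side' v ε b i => exact to_side' X v ε b i
  | jun v w k => exact to_jun X v w k

/-- the pinwheel group is the group of the plan with the tree killed -/
noncomputable def killEquiv : (plan X).Kill (tree X).K ≃* X.Pin :=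
  MonoidHom.toMulEquiv (fromKill X.sat) (toKill X) (to_from X) (from_to X)

/-- **The pinwheel group is the fundamental group of its T-plan.** -/
noncomputable def pi1Pin : (plan X).pi1 (.brick Br.b0) ≃* X.Pin :=
  (Plan.pi1Equiv (tree X)).trans (killEquiv X)

/-- the isomorphism is the identity on the group of the first brick -/
theorem pi1Pin_brick (z : G0) : pi1Pin X ⟨(plan X).ofBrick Br.b0 z,
    (plan X).walk_ofVert (.brick Br.b0) z⟩ = X.of0 z := by
  change fromKill X.sat (Plan.quo (tree X).K ((plan X).ofBrick Br.b0 z)) = X.of0 z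
  exact (congrArg _ (Plan.quo_of _ _)).trans (fromKill_of _ _)

end Pool.TPW
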