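import Pool.Agent.Lib.TPW.Iso
import Pool.Agent.Lib.GSQ.Iso

/-!
# The groups of the pinwheel quotients are fundamental groups of T-plans
-/

namespace Pool.TPW

open Pool.TPG

/-- **The group with nine generators of a pinwheel quotient is the fundamental group of a finite
T-plan**: three bricks, two vertical and two horizontal walls. -/
noncomputable def pi1PW (n : Pool.GSQ.Exps) :
    (plan (Pool.GSQ.wheel n)).pi1 (.brick Br.b0) ≃* Pool.GSQ.PW n :=
  (pi1Pin (Pool.GSQ.wheel n)).trans (Pool.GSQ.iso n).symm

end Pool.TPW
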