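import Pool.Agent.Lib.TPW.Faith
import Pool.Agent.Lib.TPG.Main
import Pool.Agent.Lib.GSP.WheelHom

/-!
# The pinwheel as a T-plan

Three bricks, two vertical walls, two horizontal walls.
-/

namespace Pool.TPW

open Function Monoid Pool.GSP Pool.TPG

/-- the bricks -/
inductive Br | b0 | b1 | b2
  deriving DecidableEq

/-- the walls of one kind -/
inductive Wl | one | two

variable {A B G0 G1 : Type} [Group A] [Group B] [Group G0] [Group G1] (X : Wheel A B G0 G1)

/-- sides of the vertical walls -/
def inc : Wl → Bool → Br → Prop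
  | .one, true, .b0 => True
  | .one, false, .b1 => True
  | .one, false, .b2 => True
  | .two, _, .b2 => True
  | _, _, _ => False

/-- sides of the horizontal walls -/
def inc' : Wl → Bool → Br → Prop
  | .one, false, .b1 => True
  | .one, true, .b2 => True
  | .two, _, .b0 => True
  | .two, _, .b2 => True
  | _, _, _ => False

/-- ends of the horizontal walls -/
def st : Wl → Bool → Wl → Prop
  | .one, false, .one => True
  | .two, _, .two => True
  | _, _, _ => False

/-- ends of the vertical walls -/
def st' : Wl → Bool → Wl → Prop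
  | .one, true, .two => True
  | .two, _, .one => True
  | _, _, _ => False

/-- groups of the bricks -/
def G (_ : Wheel A B G0 G1) : Br → Type
  | .b0 => G0
  | .b1 => G1
  | .b2 => F2 × F2

instance gG : ∀ t, Group (G X t)
  | .b0 => inferInstanceAs (Group G0)
  | .b1 => inferInstanceAs (Group G1)
  | .b2 => inferInstanceAs (Group (F2 × F2))

/-- groups of the vertical walls -/
def N : Wl → Type
  | .one => NN (pw X.μ)
  | .two => F2 × Zm

instance gN : ∀ t, Group (N X t)
  | .one => inferInstanceAs (Group (NN (pw X.μ)))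
  | .two => inferInstanceAs (Group (F2 × Zm))

/-- groups of the horizontal walls -/
def N' : Wl → Type
  | .one => F2 × Zm
  | .two => NN (pw X.ν)

instance gN' : ∀ t, Group (N' X t)
  | .one => inferInstanceAs (Group (F2 × Zm))
  | .two => inferInstanceAs (Group (NN (pw X.ν)))

/-- groups of the sides of the vertical walls -/
def S : Wl → Bool → Br → Type
  | .one, true, .b0 => NN (pw X.μ)
  | .one, false, .b1 => EN (pw X.μ)
  | _, _, _ => F2 × Zm

instance gS : ∀ v ε t, Group (S X v ε t)
  | .one, true, .b0 => inferInstanceAs (Group (NN (pw X.μ)))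
  | .one, false, .b1 => inferInstanceAs (Group (EN (pw X.μ)))
  | .one, true, .b1 => inferInstanceAs (Group (F2 × Zm))
  | .one, true, .b2 => inferInstanceAs (Group (F2 × Zm))
  | .one, false, .b0 => inferInstanceAs (Group (F2 × Zm))
  | .one, false, .b2 => inferInstanceAs (Group (F2 × Zm))
  | .two, true, .b0 => inferInstanceAs (Group (F2 × Zm))
  | .two, true, .b1 => inferInstanceAs (Group (F2 × Zm))
  | .two, true, .b2 => inferInstanceAs (Group (F2 × Zm))
  | .two, false, .b0 => inferInstanceAs (Group (F2 × Zm))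
  | .two, false, .b1 => inferInstanceAs (Group (F2 × Zm))
  | .two, false, .b2 => inferInstanceAs (Group (F2 × Zm))

/-- groups of the sides of the horizontal walls -/
def S' : Wl → Bool → Br → Type
  | .two, false, .b0 => EN (pw X.ν)
  | .two, true, .b0 => EN (pw X.ν')
  | _, _, _ => F2 × Zm

instance gS' : ∀ v ε t, Group (S' X v ε t)
  | .two, false, .b0 => inferInstanceAs (Group (EN (pw X.ν)))
  | .two, true, .b0 => inferInstanceAs (Group (EN (pw X.ν')))
  | .one, true, .b0 => inferInstanceAs (Group (F2 × Zm))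
  | .one, true, .b1 => inferInstanceAs (Group (F2 × Zm))
  | .one, true, .b2 => inferInstanceAs (Group (F2 × Zm))
  | .one, false, .b0 => inferInstanceAs (Group (F2 × Zm))
  | .one, false, .b1 => inferInstanceAs (Group (F2 × Zm))
  | .one, false, .b2 => inferInstanceAs (Group (F2 × Zm))
  | .two, true, .b1 => inferInstanceAs (Group (F2 × Zm))
  | .two, true, .b2 => inferInstanceAs (Group (F2 × Zm))
  | .two, false, .b1 => inferInstanceAs (Group (F2 × Zm))
  | .two, false, .b2 => inferInstanceAs (Group (F2 × Zm))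

/-- sides of the vertical walls in the bricks -/
def toG : ∀ v ε t, S X v ε t →* G X t
  | .one, true, .b0 => X.P1
  | .one, false, .b1 => X.P2
  | .one, false, .b2 => s2 gd
  | .two, true, .b2 => s2 gx
  | .two, false, .b2 => s2 dy
  | .one, true, .b1 => 1
  | .one, true, .b2 => 1
  | .one, false, .b0 => 1
  | .two, true, .b0 => 1
  | .two, true, .b1 => 1
  | .two, false, .b0 => 1
  | .two, false, .b1 => 1

/-- sides of the vertical walls in the walls -/
def toN : ∀ v ε t, S X v ε t →* N X v
  | .one, true, .b0 => MonoidHom.id (NN (pw X.μ))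
  | .one, false, .b1 => jA (pw X.μ)
  | .one, false, .b2 => X.fM
  | .two, true, .b2 => iT
  | .two, false, .b2 => X.iT'
  | .one, true, .b1 => 1
  | .one, true, .b2 => 1
  | .one, false, .b0 => 1
  | .two, true, .b0 => 1
  | .two, true, .b1 => 1
  | .two, false, .b0 => 1
  | .two, false, .b1 => 1

/-- sides of the horizontal walls in the bricks -/
def toG' : ∀ v ε t, S' X v ε t →* G X t
  | .two, false, .b0 => X.Q1
  | .two, true, .b0 => X.Q2
  | .two, false, .b2 => s1 gx
  | .two, true, .b2 => s1 dy
  | .one, false, .b1 => X.Q5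
  | .one, true, .b2 => s1 gd
  | .one, true, .b0 => 1
  | .one, true, .b1 => 1
  | .one, false, .b0 => 1
  | .one, false, .b2 => 1
  | .two, true, .b1 => 1
  | .two, false, .b1 => 1

/-- sides of the horizontal walls in the walls -/
def toN' : ∀ v ε t, S' X v ε t →* N' X v
  | .two, false, .b0 => jA (pw X.ν)
  | .two, true, .b0 => X.aN'
  | .two, false, .b2 => X.fN
  | .two, true, .b2 => X.fN'
  | .one, false, .b1 => MonoidHom.id (F2 × Zm)
  | .one, true, .b2 => iT
  | .one, true, .b0 => 1
  | .one, true, .b1 => 1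
  | .one, false, .b0 => 1
  | .one, false, .b2 => 1
  | .two, true, .b1 => 1
  | .two, false, .b1 => 1

/-- the junction groups in the sides of the vertical walls -/
def σ : ∀ (v : Wl) (ε : Bool) (_ : Wl) (_ : Bool) (t : Br), Zm × Zm →* S X v ε t
  | .one, true, .two, false, .b0 => X.fM.comp (sw gx)
  | .one, true, .two, true, .b0 => X.fM.comp (sw dy)
  | .one, false, .two, false, .b2 => (sw gx : Zm × Zm →* F2 × Zm)
  | .one, false, .two, true, .b2 => (sw dy : Zm × Zm →* F2 × Zm)
  | .two, true, .two, false, .b2 => (sw gx : Zm × Zm →* F2 × Zm)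
  | .two, true, .two, true, .b2 => (sw dy : Zm × Zm →* F2 × Zm)
  | .two, false, .two, false, .b2 => (sw gx : Zm × Zm →* F2 × Zm)
  | .two, false, .two, true, .b2 => (sw dy : Zm × Zm →* F2 × Zm)
  | .two, true, .one, true, .b2 => (sw gd : Zm × Zm →* F2 × Zm)
  | .two, false, .one, true, .b2 => (sw gd : Zm × Zm →* F2 × Zm)
  | .one, false, .one, false, .b1 => (κA (pw X.μ) X.δ' X.fixB).comp
      ((MonoidHom.snd Zm Zm).prod (MonoidHom.fst Zm Zm))
  | .one, false, .one, true, .b2 => (sw gd : Zm × Zm →* F2 × Zm)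
  | _, _, _, _, _ => 1

/-- the junction groups in the sides of the horizontal walls -/
def σ' : ∀ (_ : Wl) (_ : Bool) (h : Wl) (δ : Bool) (t : Br), Zm × Zm →* S' X h δ t
  | .one, true, .two, false, .b0 => κA (pw X.ν) X.δ X.fixA
  | .one, true, .two, true, .b0 => κA (pw X.ν') X.δ X.fixA'
  | .one, false, .two, false, .b2 => (GSP.st gd : Zm × Zm →* F2 × Zm)
  | .one, false, .two, true, .b2 => (GSP.st gd : Zm × Zm →* F2 × Zm)
  | .two, true, .two, false, .b2 => (GSP.st gx : Zm × Zm →* F2 × Zm)
  | .two, true, .two, true, .b2 => (GSP.st gx : Zm × Zm →* F2 × Zm)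
  | .two, false, .two, false, .b2 => (GSP.st dy : Zm × Zm →* F2 × Zm)
  | .two, false, .two, true, .b2 => (GSP.st dy : Zm × Zm →* F2 × Zm)
  | .two, true, .one, true, .b2 => (GSP.st gx : Zm × Zm →* F2 × Zm)
  | .two, false, .one, true, .b2 => (GSP.st dy : Zm × Zm →* F2 × Zm)
  | .one, false, .one, false, .b1 => (iT.comp (GSP.st gd) : Zm × Zm →* F2 × Zm)
  | .one, false, .one, true, .b2 => (GSP.st gd : Zm × Zm →* F2 × Zm)
  | _, _, _, _, _ => 1

/-- the junction groups in the vertical walls -/
def ρ : ∀ (v : Wl) (_ : Wl), Bool × Bool → (Zm × Zm →* N X v)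
  | .one, .two, (false, _) => X.fM.comp (sw gx)
  | .one, .two, (true, _) => X.fM.comp (sw dy)
  | .two, .two, (true, _) => iT.comp (sw gx)
  | .two, .two, (false, _) => X.iT'.comp (sw gx)
  | .two, .one, _ => iT.comp (sw gd)
  | .one, .one, _ => X.fM.comp (sw gd)

/-- the junction groups in the horizontal walls -/
def ρ' : ∀ (_ : Wl) (h : Wl), Bool × Bool → (Zm × Zm →* N' X h)
  | .one, .two, (false, _) => (jA (pw X.ν)).comp (κA (pw X.ν) X.δ X.fixA)
  | .one, .two, (true, _) => X.aN'.comp (κA (pw X.ν') X.δ X.fixA')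
  | .two, .two, (true, _) => X.fN.comp (GSP.st gx)
  | .two, .two, (false, _) => X.fN.comp (GSP.st dy)
  | .two, .one, _ => iT.comp (GSP.st gx)
  | .one, .one, _ => iT.comp (GSP.st gd)

/-- the corner elements in the vertical walls -/
noncomputable def bb : ∀ (v : Wl) (_ : Bool) (_ : Wl) (_ : Bool), N X v
  | .two, true, .two, true => tT⁻¹
  | .two, false, .two, true => (X.Φ tT)⁻¹
  | .one, _, _, _ => (1 : NN (pw X.μ))
  | .two, _, .one, _ => (1 : F2 × Zm)
  | .two, _, .two, false => (1 : F2 × Zm)

/-- the corner elements in the horizontal walls -/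
noncomputable def bb' : ∀ (_ : Wl) (_ : Bool) (h : Wl) (_ : Bool), N' X h
  | .two, false, .two, true => X.w⁻¹
  | .two, false, .one, true => tT⁻¹
  | .one, _, .one, _ => (1 : F2 × Zm)
  | .one, _, .two, _ => (1 : NN (pw X.ν))
  | .two, true, .one, _ => (1 : F2 × Zm)
  | .two, true, .two, _ => (1 : NN (pw X.ν))
  | .two, false, .one, false => (1 : F2 × Zm)
  | .two, false, .two, false => (1 : NN (pw X.ν))

end Pool.TPW
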